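import Pool.Agent.Helper983.UNS.Spread

set_option autoImplicit false

namespace Pool.Agent.Helper983.UNS
open Finset Filter Topology

variable {m : ℕ} {q : ℝ}

/-- block averaging -/
noncomputable def T (M : ℕ) : E →ₗ[ℝ] E :=
  Finsupp.linearCombination ℝ
    (fun i : ℕ => (M : ℝ)⁻¹ • ∑ s ∈ Finset.range M, (Finsupp.single (M * i + s) (1 : ℝ) : E))

lemma T_single (M i : ℕ) (c : ℝ) : T M (Finsupp.single i c)
    = (M : ℝ)⁻¹ • ∑ s ∈ Finset.range M, (Finsupp.single (M * i + s) c : E) := by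
  rw [T, Finsupp.linearCombination_single, smul_comm, Finset.smul_sum]
  congr 1
  refine Finset.sum_congr rfl fun s _ => ?_
  rw [Finsupp.smul_single, smul_eq_mul, mul_one]

/-- spreading invariance -/
def Inv (F : E → ℝ) : Prop := ∀ σ : ℕ → ℕ, StrictMono σ → ∀ a, F (Finsupp.mapDomain σ a) = F a

lemma T_eq (M : ℕ) (a : E) : T M a
    = (M : ℝ)⁻¹ • ∑ s ∈ Finset.range M, Finsupp.mapDomain (fun i => M * i + s) a := by
  have h : T M = (M : ℝ)⁻¹ • ∑ s ∈ Finset.range M, Finsupp.lmapDomain ℝ ℝ (fun i => M * i + s) := by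
    refine Finsupp.lhom_ext fun i c => ?_
    rw [T_single]
    simp only [LinearMap.smul_apply, LinearMap.sum_apply, Finsupp.lmapDomain_apply,
      Finsupp.mapDomain_single]
  rw [h]
  simp only [LinearMap.smul_apply, LinearMap.sum_apply, Finsupp.lmapDomain_apply]

lemma Good.T_le {F : E → ℝ} (h : Good m q F) (hI : Inv F) {M : ℕ} (hM : 0 < M) (a : E) :
    F (T M a) ≤ F a := by
  rw [T_eq]
  have h1 := h.jensen (Finset.range M) (Finset.nonempty_range_iff.2 hM.ne')
    (fun s => Finsupp.mapDomain (fun i => M * i + s) a)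
  rw [Finset.card_range] at h1
  refine h1.trans (le_of_eq ?_)
  have h2 : ∀ s ∈ Finset.range M, F (Finsupp.mapDomain (fun i => M * i + s) a) = F a := by
    intro s _
    refine hI _ (fun i j hij => ?_) a
    have : M * i < M * j := Nat.mul_lt_mul_of_pos_left hij hM
    show M * i + s < M * j + s
    omega
  rw [Finset.sum_congr rfl h2, Finset.sum_const, Finset.card_range, nsmul_eq_mul, ← mul_assoc,
    inv_mul_cancel₀ (by exact_mod_cast hM.ne'), one_mul]

lemma T_map {M : ℕ} (hM : 0 < M) {σ : ℕ → ℕ} (hσ : StrictMono σ) :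
    ∃ σ' : ℕ → ℕ, StrictMono σ' ∧ ∀ a, T M (Finsupp.mapDomain σ a)
      = Finsupp.mapDomain σ' (T M a) := by
  refine ⟨fun n => M * σ (n / M) + n % M, ?_, ?_⟩
  · intro n n' hn
    simp only
    have h1 : n / M ≤ n' / M := Nat.div_le_div_right hn.le
    have h2 := Nat.div_add_mod n M
    have h3 := Nat.div_add_mod n' M
    have h4 := Nat.mod_lt n hM
    have h5 := Nat.mod_lt n' hM
    rcases h1.eq_or_lt with h | h
    · rw [h] at h2 ⊢
      omega
    · have h6 := hσ h
      have h7 : M * (σ (n / M) + 1) ≤ M * σ (n' / M) := Nat.mul_le_mul_left M h6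
      rw [mul_add, mul_one] at h7
      omega
  · intro a
    have h : (T M) ∘ₗ (Finsupp.lmapDomain ℝ ℝ σ)
        = (Finsupp.lmapDomain ℝ ℝ (fun n => M * σ (n / M) + n % M)) ∘ₗ (T M) := by
      refine Finsupp.lhom_ext fun i c => ?_
      rw [LinearMap.comp_apply, LinearMap.comp_apply, Finsupp.lmapDomain_apply,
        Finsupp.mapDomain_single, T_single, T_single, map_smul, map_sum]
      congr 1
      refine Finset.sum_congr rfl fun s hs => ?_
      rw [Finset.mem_range] at hs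
      rw [Finsupp.lmapDomain_apply, Finsupp.mapDomain_single]
      congr 1
      rw [Nat.mul_add_div hM, Nat.div_eq_of_lt hs, Nat.mul_add_mod, Nat.mod_eq_of_lt hs, add_zero]
    exact LinearMap.congr_fun h a

lemma Tn_map {M : ℕ} (hM : 0 < M) (n : ℕ) : ∀ {σ : ℕ → ℕ}, StrictMono σ →
    ∃ σ' : ℕ → ℕ, StrictMono σ' ∧ ∀ a, (T M ^ n) (Finsupp.mapDomain σ a)
      = Finsupp.mapDomain σ' ((T M ^ n) a) := by
  induction n with
  | zero =>
    intro σ hσ
    exact ⟨σ, hσ, fun a => by simp⟩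
  | succ n ih =>
    intro σ hσ
    obtain ⟨σ₁, h1, h2⟩ := ih hσ
    obtain ⟨σ₂, h3, h4⟩ := T_map hM h1
    refine ⟨σ₂, h3, fun a => ?_⟩
    rw [pow_succ', Module.End.mul_apply, Module.End.mul_apply, h2, h4]

lemma tail_T {M : ℕ} (hM : 0 < M) (p : ℕ) (a : E) : tail (M * p) (T M a) = tail p a := by
  have h : (tail (M * p)) ∘ₗ (T M) = tail p := by
    refine Finsupp.lhom_ext fun i c => ?_
    rw [LinearMap.comp_apply, T_single, map_smul, map_sum, tail_single]
    have h1 : ∀ s ∈ Finset.range M, tail (M * p) (Finsupp.single (M * i + s) c)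
        = if p ≤ i then c else 0 := by
      intro s hs
      rw [Finset.mem_range] at hs
      rw [tail_single]
      by_cases hpi : p ≤ i
      · have : M * p ≤ M * i := Nat.mul_le_mul_left M hpi
        rw [if_pos hpi, if_pos (by omega)]
      · have : M * (i + 1) ≤ M * p := Nat.mul_le_mul_left M (by omega)
        rw [mul_add, mul_one] at this
        rw [if_neg hpi, if_neg (by omega)]
    rw [Finset.sum_congr rfl h1, Finset.sum_const, Finset.card_range, nsmul_eq_mul, smul_eq_mul,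
      ← mul_assoc, inv_mul_cancel₀ (by exact_mod_cast hM.ne'), one_mul]
  exact LinearMap.congr_fun h a

lemma tail_Tn {M : ℕ} (hM : 0 < M) (n p : ℕ) (a : E) :
    tail (M ^ n * p) ((T M ^ n) a) = tail p a := by
  induction n with
  | zero => simp
  | succ n ih =>
    rw [pow_succ' (T M), Module.End.mul_apply, pow_succ' M, mul_assoc, tail_T hM, ih]

/-- averaged limit -/
noncomputable def Av (M : ℕ) (F : E → ℝ) (a : E) : ℝ := ⨅ n : ℕ, F ((T M ^ n) a)

lemma Av_tendsto {F : E → ℝ} (h : Good m q F) (hI : Inv F) {M : ℕ} (hM : 0 < M) (a : E) :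
    Tendsto (fun n : ℕ => F ((T M ^ n) a)) atTop (𝓝 (Av M F a)) := by
  refine tendsto_atTop_ciInf (antitone_nat_of_succ_le fun n => ?_) ⟨0, ?_⟩
  · rw [pow_succ', Module.End.mul_apply]
    exact h.T_le hI hM _
  · rintro _ ⟨n, rfl⟩
    exact h.nonneg _

lemma Av_good {F : E → ℝ} (h : Good m q F) (hI : Inv F) {M : ℕ} (hM : 0 < M) :
    Good m q (Av M F) :=
  Good.lim (l := atTop) (fun n : ℕ => h.comp (T M ^ n)) (Av_tendsto h hI hM)

lemma Av_le {F : E → ℝ} (h : Good m q F) (hI : Inv F) {M : ℕ} (hM : 0 < M) (a : E) :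
    Av M F a ≤ F a := by
  have := ciInf_le (f := fun n : ℕ => F ((T M ^ n) a)) ⟨0, by
    rintro _ ⟨n, rfl⟩
    exact h.nonneg _⟩ 0
  rw [pow_zero, Module.End.one_apply] at this
  exact this

lemma Av_inv {F : E → ℝ} (hI : Inv F) {M : ℕ} (hM : 0 < M) :
    Inv (Av M F) := by
  intro σ hσ a
  rw [Av, Av]
  congr 1
  funext n
  obtain ⟨σ', h1, h2⟩ := Tn_map hM n hσ
  rw [h2, hI σ' h1]

lemma Av_T {F : E → ℝ} (h : Good m q F) (hI : Inv F) {M : ℕ} (hM : 0 < M) (a : E) :
    Av M F (T M a) = Av M F a := by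
  refine tendsto_nhds_unique (Av_tendsto h hI hM (T M a)) ?_
  have h1 := (tendsto_add_atTop_iff_nat 1).2 (Av_tendsto h hI hM a)
  refine h1.congr fun n => ?_
  rw [pow_succ, Module.End.mul_apply]

/-- The model: a good seminorm square, spreading and invariant under block averages. -/
theorem model {F : E → ℝ} (h : Nice m q F) {κ : ℝ}
    (hF : ∀ (v : E) (k : ℕ), 1 ≤ k → κ * (tail k v) ^ 2 ≤ F v) {M : ℕ} (hM : 0 < M) :
    ∃ F' : E → ℝ, Nice m q F' ∧ Inv F' ∧ (∀ a, F' (T M a) = F' a) ∧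
      κ ≤ F' (Finsupp.single 0 1 - Finsupp.single 1 1) := by
  have h1 := Sp_nice h
  have hI : Inv (Sp F) := fun σ hσ a => Sp_map F hσ a
  refine ⟨Av M (Sp F), ⟨Av_good h1.good hI hM, fun j => ?_⟩, Av_inv hI hM,
    Av_T h1.good hI hM, ?_⟩
  · exact (Av_le h1.good hI hM _).trans (h1.le_one j)
  · refine ge_of_tendsto' (Av_tendsto h1.good hI hM _) fun n => ?_
    have h2 := Sp_tail h hF ((T M ^ n) (Finsupp.single 0 1 - Finsupp.single 1 1)) (M ^ n * 1)
    rw [tail_Tn hM, map_sub, tail_single, tail_single] at h2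
    norm_num at h2
    rw [map_sub]
    exact h2

end Pool.Agent.Helper983.UNS
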