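import Pool.Agent.Helper983.UNS.Unb

set_option autoImplicit false

namespace Pool.Agent.Helper983.UNS
open Finset Filter Topology

variable {q : ℝ}

/-- coefficient pattern equal to one on an initial segment -/
noncomputable def one (R : ℕ) : E := ∑ τ ∈ Finset.range R, Finsupp.single τ (1 : ℝ)

lemma one_apply (R a : ℕ) : one R a = if a < R then 1 else 0 := by
  classical
  rw [one, Finsupp.finsetSum_apply]
  simp only [Finsupp.single_apply]
  rw [Finset.sum_ite_eq' (Finset.range R) a]
  simp only [Finset.mem_range]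

lemma D_one (R : ℕ) : D (one R) = alt R := by
  rw [one, alt, map_sum]
  refine Finset.sum_congr rfl fun τ _ => ?_
  rw [D_single, one_smul]

lemma exists_bound (c : E) : ∃ R : ℕ, 0 < R ∧ ∀ a, c a ≠ 0 → a < R := by
  refine ⟨c.support.sup id + 1, by omega, fun a ha => ?_⟩
  have := Finset.le_sup (f := id) (Finsupp.mem_support_iff.2 ha)
  simp only [id] at this
  omega

lemma sign_bdd {m : ℕ} {F : E → ℝ} (h : Nice m q F) (hI : Inv F) {B : ℝ}
    (hB : ∀ r, √(F (alt r)) ≤ B) (c : E) (hc : ∀ a, c a = -1 ∨ c a = 0 ∨ c a = 1) :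
    √(F (D c)) ≤ 2 * B := by
  classical
  obtain ⟨R, -, hR⟩ := exists_bound c
  have e1 : c = (one R).filter (fun a => c a = 1) - (one R).filter (fun a => c a = -1) := by
    ext a
    rw [Finsupp.sub_apply]
    rcases hc a with h1 | h1 | h1
    · rw [Finsupp.filter_apply_neg (fun a => c a = 1) _ (by rw [h1]; norm_num),
        Finsupp.filter_apply_pos (fun a => c a = -1) _ h1,
        one_apply, if_pos (hR a (by rw [h1]; norm_num)), h1]
      norm_num
    · rw [Finsupp.filter_apply_neg (fun a => c a = 1) _ (by rw [h1]; norm_num),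
        Finsupp.filter_apply_neg (fun a => c a = -1) _ (by rw [h1]; norm_num), h1]
      norm_num
    · rw [Finsupp.filter_apply_pos (fun a => c a = 1) _ h1,
        Finsupp.filter_apply_neg (fun a => c a = -1) _ (by rw [h1]; norm_num),
        one_apply, if_pos (hR a (by rw [h1]; norm_num)), h1]
      norm_num
  have h1 : ∀ (p : ℕ → Prop) [DecidablePred p], √(F (D ((one R).filter p))) ≤ B := by
    intro p _
    refine le_trans (Real.sqrt_le_sqrt (supp_filter h hI (one R) p)) ?_
    rw [D_one]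
    exact hB R
  have h2 := h.good.tri (D ((one R).filter (fun a => c a = 1)))
    (-D ((one R).filter (fun a => c a = -1)))
  rw [h.good.neg, ← sub_eq_add_neg, ← map_sub, ← e1] at h2
  linarith [h1 (fun a => c a = 1), h1 (fun a => c a = -1)]

/-- shifted coefficients -/
noncomputable def Cs (c : E) (k : ℕ) : E := Finsupp.lmapDomain ℝ ℝ (fun a => k + a) c

lemma Cs_apply (c : E) (k a : ℕ) : Cs c k a = if k ≤ a then c (a - k) else 0 := by
  have hinj : Function.Injective (fun a => k + a) := fun a b hab => Nat.add_left_cancel hab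
  rw [Cs, Finsupp.lmapDomain_apply]
  split_ifs with hk
  · obtain ⟨b, rfl⟩ : ∃ b, a = k + b := ⟨a - k, by omega⟩
    rw [Nat.add_sub_cancel_left]
    exact Finsupp.mapDomain_apply hinj c b
  · apply Finsupp.mapDomain_of_notMem_range
    rintro ⟨b, hb⟩
    simp only at hb
    omega

lemma D_Cs (c : E) (k : ℕ) : D (Cs c k) = Finsupp.lmapDomain ℝ ℝ (fun n => 2 * k + n) (D c) := by
  have h : D ∘ₗ Finsupp.lmapDomain ℝ ℝ (fun a => k + a)
      = Finsupp.lmapDomain ℝ ℝ (fun n => 2 * k + n) ∘ₗ D := by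
    refine Finsupp.lhom_ext fun i t => ?_
    rw [LinearMap.comp_apply, LinearMap.comp_apply, Finsupp.lmapDomain_apply,
      Finsupp.mapDomain_single, D_single, D_single, map_smul, map_sub, map_e, map_e]
    congr 3 <;> ring
  exact LinearMap.congr_fun h c

lemma Cs_ne_zero {c : E} {R : ℕ} (hR0 : 0 < R) (hR : ∀ a, c a ≠ 0 → a < R) {i a : ℕ}
    (h : Cs c (R * i) a ≠ 0) : a / R = i := by
  rw [Cs_apply] at h
  split_ifs at h with hk
  · have h1 := hR _ h
    rw [Nat.div_eq_iff hR0, mul_comm i R]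
    constructor
    · exact hk
    · omega
  · exact absurd rfl h

theorem no_model {M : ℕ} (hM : 0 < M) (hq0 : 0 ≤ q) (hq : q < M) {F : E → ℝ}
    (h : Nice (M + 1) q F) (hI : Inv F) (hT : ∀ a, F (T M a) = F a) {κ : ℝ} (hκ : 0 < κ)
    (hlow : κ ≤ F (e 0 - e 1)) : False := by
  classical
  obtain ⟨B, hB0, hB⟩ := alt_bdd hM hq0 hq h hI hT
  have hM0 : (0 : ℝ) < M := by exact_mod_cast hM
  set Sv : Set ℝ := {x | ∃ c : E, (∀ a, c a = -1 ∨ c a = 0 ∨ c a = 1) ∧ x = F (D c)} with hSv
  have hbdd : BddAbove Sv := by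
    refine ⟨(2 * B) ^ 2, ?_⟩
    rintro _ ⟨c, hc, rfl⟩
    calc F (D c) = √(F (D c)) ^ 2 := (Real.sq_sqrt (h.good.nonneg _)).symm
      _ ≤ (2 * B) ^ 2 := pow_le_pow_left₀ (Real.sqrt_nonneg _) (sign_bdd h hI hB c hc) 2
  have hmem1 : F (e 0 - e 1) ∈ Sv := by
    refine ⟨Finsupp.single 0 1, fun a => ?_, ?_⟩
    · rw [Finsupp.single_apply]
      split_ifs
      · exact Or.inr (Or.inr rfl)
      · exact Or.inr (Or.inl rfl)
    · rw [D_single, one_smul]
  set K := sSup Sv with hK
  have hK0 : 0 < K := hκ.trans_le (hlow.trans (le_csSup hbdd hmem1))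
  have hlt : q / M * K < K := by
    have : q / M < 1 := (div_lt_one hM0).2 hq
    nlinarith
  obtain ⟨_, ⟨c, hc, rfl⟩, hcK⟩ := exists_lt_of_lt_csSup ⟨_, hmem1⟩ hlt
  obtain ⟨R, hR0, hR⟩ := exists_bound c
  set w : Fin (M + 1) → E := fun i => D (Cs c (R * i)) with hw
  have hwF : ∀ i : Fin (M + 1), F (D (Cs c (R * i))) = F (D c) := by
    intro i
    rw [D_Cs, Finsupp.lmapDomain_apply]
    exact hI _ (fun a b hab => by show 2 * (R * (i : ℕ)) + a < 2 * (R * i) + b; omega) _
  have hdisj : ∀ (i j : Fin (M + 1)) (a : ℕ), i ≠ j → Cs c (R * i) a ≠ 0 → Cs c (R * j) a = 0 := by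
    intro i j a hij h1
    by_contra h2
    have h3 := Cs_ne_zero hR0 hR h1
    have h4 := Cs_ne_zero hR0 hR h2
    exact hij (Fin.ext (h3.symm.trans h4))
  have hval : ∀ (k a : ℕ), Cs c k a = -1 ∨ Cs c k a = 0 ∨ Cs c k a = 1 := by
    intro k a
    rw [Cs_apply]
    split_ifs
    · exact hc _
    · exact Or.inr (Or.inl rfl)
  have hpair : ∀ i j : Fin (M + 1), F (w i - w j) ≤ K := by
    intro i j
    refine le_csSup hbdd ⟨Cs c (R * i) - Cs c (R * j), fun a => ?_, ?_⟩
    · rw [Finsupp.sub_apply]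
      by_cases hij : i = j
      · subst hij
        rw [sub_self]
        exact Or.inr (Or.inl rfl)
      · by_cases h1 : Cs c (R * i) a = 0
        · rw [h1, zero_sub]
          rcases hval (R * j) a with h2 | h2 | h2 <;> rw [h2] <;> norm_num
        · rw [hdisj i j a hij h1, sub_zero]
          exact hval _ _
    · rw [hw, map_sub]
  have hstar := h.good.star w
  have h1 : ∑ i, ∑ j, F (w i - w j) ≤ (M + 1) * (M * K) := by
    have h2 : ∀ i : Fin (M + 1), ∑ j : Fin (M + 1), F (w i - w j) ≤ M * K := by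
      intro i
      rw [← Finset.sum_erase_add _ _ (Finset.mem_univ i), sub_self, h.good.zero, add_zero]
      calc ∑ j ∈ Finset.univ.erase i, F (w i - w j)
          ≤ ∑ _j ∈ Finset.univ.erase i, K := Finset.sum_le_sum fun j _ => hpair i j
        _ = M * K := by
            rw [Finset.sum_const, Finset.card_erase_of_mem (Finset.mem_univ i), Finset.card_univ,
              Fintype.card_fin, nsmul_eq_mul, Nat.add_sub_cancel]
    calc _ ≤ ∑ _i : Fin (M + 1), M * K := Finset.sum_le_sum fun i _ => h2 i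
      _ = (M + 1) * (M * K) := by
          rw [Finset.sum_const, Finset.card_univ, Fintype.card_fin, nsmul_eq_mul, Nat.cast_add,
            Nat.cast_one]
  have h2 : ∀ i : Fin (M + 1), (M : ℝ) ^ 2 * F (D c) ≤ F (∑ j, (w i - w j)) := by
    intro i
    set Y : E := ∑ j : Fin (M + 1), (Cs c (R * i) - Cs c (R * j)) with hY
    have e1 : ∑ j, (w i - w j) = D Y := by
      rw [hY, map_sum]
      refine Finset.sum_congr rfl fun j _ => ?_
      rw [map_sub]
    have e2 : Y.filter (fun a => a / R = i) = (M : ℝ) • Cs c (R * i) := by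
      ext a
      rw [Finsupp.smul_apply, smul_eq_mul]
      by_cases ha : a / R = i
      · rw [Finsupp.filter_apply_pos (fun a => a / R = (i : ℕ)) _ ha, hY,
          Finsupp.finsetSum_apply,
          ← Finset.sum_erase_add _ _ (Finset.mem_univ i), sub_self, Finsupp.zero_apply, add_zero]
        have h3 : ∀ j ∈ Finset.univ.erase i, (Cs c (R * i) - Cs c (R * j)) a = Cs c (R * i) a := by
          intro j hj
          have hji := Finset.ne_of_mem_erase hj
          rw [Finsupp.sub_apply]
          have h4 : Cs c (R * j) a = 0 := by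
            by_contra h5
            have h6 := Cs_ne_zero hR0 hR h5
            exact hji (Fin.ext (h6.symm.trans ha))
          rw [h4, sub_zero]
        rw [Finset.sum_congr rfl h3, Finset.sum_const, Finset.card_erase_of_mem (Finset.mem_univ i),
          Finset.card_univ, Fintype.card_fin, nsmul_eq_mul, Nat.add_sub_cancel]
      · rw [Finsupp.filter_apply_neg (fun a => a / R = (i : ℕ)) _ ha]
        have h4 : Cs c (R * i) a = 0 := by
          by_contra h5
          exact ha (Cs_ne_zero hR0 hR h5)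
        rw [h4, mul_zero]
    have h3 := supp_filter h hI Y (fun a => a / R = i)
    rw [e2, map_smul, h.good.hom, hwF] at h3
    rw [e1]
    exact h3
  have h3 : ((M : ℝ) + 1) * (M ^ 2 * F (D c)) ≤ q * ((M + 1) * (M * K)) := by
    calc ((M : ℝ) + 1) * (M ^ 2 * F (D c)) = ∑ _i : Fin (M + 1), (M : ℝ) ^ 2 * F (D c) := by
          rw [Finset.sum_const, Finset.card_univ, Fintype.card_fin, nsmul_eq_mul, Nat.cast_add,
            Nat.cast_one]
      _ ≤ ∑ i, F (∑ j, (w i - w j)) := Finset.sum_le_sum fun i _ => h2 i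
      _ ≤ q * ∑ i, ∑ j, F (w i - w j) := hstar
      _ ≤ q * ((M + 1) * (M * K)) := mul_le_mul_of_nonneg_left h1 hq0
  have h4 : (M : ℝ) * F (D c) ≤ q * K := by
    have h5 : ((M : ℝ) + 1) * M * (M * F (D c)) ≤ ((M : ℝ) + 1) * M * (q * K) := by
      calc _ = ((M : ℝ) + 1) * (M ^ 2 * F (D c)) := by ring
        _ ≤ q * ((M + 1) * (M * K)) := h3
        _ = _ := by ring
    exact le_of_mul_le_mul_left h5 (by positivity)
  have h5 : (M : ℝ) * (q / M * K) < M * F (D c) := mul_lt_mul_of_pos_left hcK hM0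
  have h6 : (M : ℝ) * (q / M * K) = q * K := by field_simp
  linarith

end Pool.Agent.Helper983.UNS
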