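import Pool.Agent.Helper983.UNS.Good

set_option autoImplicit false

namespace Pool.Agent.Helper983.UNS
open Finset Filter Topology

lemma Good.half {V : Type} [AddCommGroup V] [Module ℝ V] {m : ℕ} {q : ℝ} {F G : V → ℝ}
    (hF : Good m q F) (hG : Good m q G) : Good m q (fun v => 1 / 2 * F v + 1 / 2 * G v) := by
  have h : ∀ k : Bool, Good m q ((fun k : Bool => if k then F else G) k) := by
    intro k
    cases k
    · simpa using hG
    · simpa using hF
  have := Good.sum h (w := fun _ => 1 / 2) (fun _ => by norm_num)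
  simpa only [Fintype.sum_bool, if_true, Bool.false_eq_true, if_false] using this

section
variable {X : Type} [NormedAddCommGroup X] [NormedSpace ℝ X]

/-- midpoint derivation -/
def der (ε : ℝ) (C : Set X) : Set X :=
  convexHull ℝ {p | ∃ x ∈ C, ∃ y ∈ C, ε ≤ ‖x - y‖ ∧ p = (1 / 2 : ℝ) • (x + y)}

/-- iterated midpoint derivation of the unit ball -/
def Dr (X : Type) [NormedAddCommGroup X] [NormedSpace ℝ X] (ε : ℝ) : ℕ → Set X
  | 0 => Metric.closedBall 0 1
  | n + 1 => der ε (Dr X ε n)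

/-- the shift map used in the recursion -/
def sh (z : X) : X × (ℕ → ℝ) →ₗ[ℝ] X × (ℕ → ℝ) where
  toFun p := (p.1 + p.2 0 • z, fun j => p.2 (j + 1))
  map_add' p p' := by
    ext
    · simp only [Prod.fst_add, Prod.snd_add, Pi.add_apply, add_smul]
      abel
    · simp
  map_smul' t p := by
    ext
    · simp only [Prod.smul_fst, Prod.smul_snd, Pi.smul_apply, smul_eq_mul, RingHom.id_apply,
        smul_add, mul_smul]
    · simp

/-- the base map -/
def ba (z : X) : X × (ℕ → ℝ) →ₗ[ℝ] X where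
  toFun p := p.1 + p.2 0 • z
  map_add' p p' := by
    simp only [Prod.fst_add, Prod.snd_add, Pi.add_apply, add_smul]
    abel
  map_smul' t p := by
    simp only [Prod.smul_fst, Prod.smul_snd, Pi.smul_apply, smul_eq_mul, RingHom.id_apply,
        smul_add, mul_smul]

lemma sh_apply (z : X) (c : X) (a : ℕ → ℝ) : sh z (c, a) = (c + a 0 • z, fun j => a (j + 1)) := rfl
lemma ba_apply (z : X) (c : X) (a : ℕ → ℝ) : ba z (c, a) = c + a 0 • z := rfl

lemma Dr_norm_le (ε : ℝ) : ∀ (N : ℕ) (z : X), z ∈ Dr X ε N → ‖z‖ ≤ 1 := by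
  intro N
  induction N with
  | zero =>
    intro z hz
    exact mem_closedBall_zero_iff.1 hz
  | succ N ih =>
    intro z hz
    have : Dr X ε (N + 1) ⊆ Metric.closedBall 0 1 := by
      apply convexHull_min _ (convex_closedBall _ _)
      rintro _ ⟨x, hx, y, hy, -, rfl⟩
      rw [mem_closedBall_zero_iff, norm_smul]
      have h1 := ih x hx
      have h2 := ih y hy
      have h3 := norm_add_le x y
      norm_num
      linarith
    exact mem_closedBall_zero_iff.1 (this hz)

lemma normSq_sum_cvx {ι : Type} [Fintype ι] {w : ι → ℝ} (hw0 : ∀ i, 0 ≤ w i)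
    (hw1 : ∑ i, w i = 1) (v : ι → X) : ‖∑ i, w i • v i‖ ^ 2 ≤ ∑ i, w i * ‖v i‖ ^ 2 := by
  have h1 : ‖∑ i, w i • v i‖ ≤ ∑ i, w i * ‖v i‖ := by
    refine (norm_sum_le _ _).trans (le_of_eq ?_)
    refine Finset.sum_congr rfl fun i _ => ?_
    rw [norm_smul, Real.norm_of_nonneg (hw0 i)]
  have h2 : (∑ i, w i * ‖v i‖) ^ 2 ≤ ∑ i, w i * ‖v i‖ ^ 2 := by
    have := (convexOn_pow 2 (𝕜 := ℝ)).map_sum_le (t := Finset.univ) (w := w)
      (p := fun i => ‖v i‖) (fun i _ => hw0 i) hw1 (fun i _ => norm_nonneg _)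
    simpa only [smul_eq_mul] using this
  exact (pow_le_pow_left₀ (norm_nonneg _) h1 2).trans h2

/-- The good seminorm square attached to a point of an iterated derivative. -/
theorem tree {m : ℕ} {q : ℝ} (hG : Good m q (fun x : X => ‖x‖ ^ 2)) {ε : ℝ} (hε : 0 < ε) :
    ∀ (N : ℕ) (z : X), z ∈ Dr X ε N → ∃ F : X × (ℕ → ℝ) → ℝ, Good m q F ∧
      (∀ j, F (0, Pi.single j 1) ≤ 1) ∧ (∀ c, F (c, 0) ≤ ‖c‖ ^ 2) ∧
      (∀ c a, ‖c + (∑ j ∈ Finset.range (N + 1), a j) • z‖ ^ 2 ≤ F (c, a)) ∧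
      (∀ c a k, 1 ≤ k → k ≤ N → ε ^ 2 / 4 * (∑ j ∈ Finset.Ico k (N + 1), a j) ^ 2 ≤ F (c, a)) := by
  intro N
  induction N with
  | zero =>
    intro z hz
    have hz1 := Dr_norm_le ε 0 z hz
    refine ⟨fun p => ‖ba z p‖ ^ 2, hG.comp (ba z), ?_, ?_, ?_, ?_⟩
    · intro j
      beta_reduce
      rw [ba_apply, zero_add, norm_smul]
      have h1 : ‖(Pi.single j (1 : ℝ) : ℕ → ℝ) 0‖ ≤ 1 := by
        by_cases hj : j = 0
        · subst hj; simp
        · rw [Pi.single_eq_of_ne (Ne.symm hj)]; simp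
      have h2 : ‖(Pi.single j (1 : ℝ) : ℕ → ℝ) 0‖ * ‖z‖ ≤ 1 :=
        mul_le_one₀ h1 (norm_nonneg _) hz1
      exact pow_le_one₀ (by positivity) h2
    · intro c
      beta_reduce
      rw [ba_apply]
      simp
    · intro c a
      beta_reduce
      rw [ba_apply]
      simp
    · intro c a k h1 h2
      omega
  | succ N ih =>
    intro z hz
    have hz1 := Dr_norm_le ε (N + 1) z hz
    have hz' : z ∈ convexHull ℝ {p | ∃ x ∈ Dr X ε N, ∃ y ∈ Dr X ε N, ε ≤ ‖x - y‖ ∧
      p = (1 / 2 : ℝ) • (x + y)} := hz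
    rw [mem_convexHull_iff_exists_fintype] at hz'
    obtain ⟨ι, _, w, p, hw0, hw1, hp, hsum⟩ := hz'
    choose x hx y hy hxy hpe using hp
    choose Fx hFx1 hFx2 hFx3 hFx4 hFx5 using fun i => ih (x i) (hx i)
    choose Fy hFy1 hFy2 hFy3 hFy4 hFy5 using fun i => ih (y i) (hy i)
    have hval : ∀ c a, ∑ i, w i * (1 / 2 * Fx i (sh z (c, a)) + 1 / 2 * Fy i (sh z (c, a)))
        = ∑ i, w i * (1 / 2 * Fx i (c + a 0 • z, fun j => a (j + 1))
          + 1 / 2 * Fy i (c + a 0 • z, fun j => a (j + 1))) := fun c a => rfl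
    refine ⟨fun v => ∑ i, w i * (1 / 2 * Fx i (sh z v) + 1 / 2 * Fy i (sh z v)), ?_, ?_, ?_, ?_, ?_⟩
    · exact Good.sum (fun i => ((hFx1 i).comp (sh z)).half ((hFy1 i).comp (sh z))) hw0
    · intro j
      beta_reduce
      rw [hval]
      have hle : ∀ i, 1 / 2 * Fx i (0 + (Pi.single j (1 : ℝ) : ℕ → ℝ) 0 • z,
            fun l => (Pi.single j (1 : ℝ) : ℕ → ℝ) (l + 1))
          + 1 / 2 * Fy i (0 + (Pi.single j (1 : ℝ) : ℕ → ℝ) 0 • z,
            fun l => (Pi.single j (1 : ℝ) : ℕ → ℝ) (l + 1)) ≤ 1 := by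
        intro i
        rcases Nat.eq_zero_or_eq_succ_pred j with hj | hj
        · subst hj
          have e1 : (fun l : ℕ => (Pi.single 0 (1 : ℝ) : ℕ → ℝ) (l + 1)) = 0 := by
            funext l
            simp
          rw [e1, Pi.single_eq_same, zero_add, one_smul]
          have h1 := hFx3 i z
          have h2 := hFy3 i z
          have h3 : ‖z‖ ^ 2 ≤ 1 := pow_le_one₀ (norm_nonneg _) hz1
          linarith
        · set j' := j.pred
          have e1 : (fun l : ℕ => (Pi.single j (1 : ℝ) : ℕ → ℝ) (l + 1)) = Pi.single j' 1 := by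
            funext l
            rw [hj]
            by_cases hl : l = j'
            · subst hl; simp
            · rw [Pi.single_eq_of_ne hl, Pi.single_eq_of_ne (by omega)]
          have e2 : (Pi.single j (1 : ℝ) : ℕ → ℝ) 0 = 0 := by
            rw [Pi.single_eq_of_ne (by omega)]
          rw [e1, e2, zero_smul, add_zero]
          have h1 := hFx2 i j'
          have h2 := hFy2 i j'
          linarith
      calc _ ≤ ∑ i, w i * 1 := Finset.sum_le_sum fun i _ => mul_le_mul_of_nonneg_left (hle i) (hw0 i)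
        _ = 1 := by simp [hw1]
    · intro c
      beta_reduce
      rw [hval]
      have hle : ∀ i, 1 / 2 * Fx i (c + (0 : ℕ → ℝ) 0 • z, fun l => (0 : ℕ → ℝ) (l + 1))
          + 1 / 2 * Fy i (c + (0 : ℕ → ℝ) 0 • z, fun l => (0 : ℕ → ℝ) (l + 1)) ≤ ‖c‖ ^ 2 := by
        intro i
        have e1 : (fun l : ℕ => (0 : ℕ → ℝ) (l + 1)) = 0 := rfl
        rw [e1, Pi.zero_apply, zero_smul, add_zero]
        have h1 := hFx3 i c
        have h2 := hFy3 i c
        linarith
      calc _ ≤ ∑ i, w i * ‖c‖ ^ 2 :=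
            Finset.sum_le_sum fun i _ => mul_le_mul_of_nonneg_left (hle i) (hw0 i)
        _ = ‖c‖ ^ 2 := by rw [← Finset.sum_mul, hw1, one_mul]
    · intro c a
      beta_reduce
      rw [hval]
      set s := ∑ j ∈ Finset.range (N + 1), a (j + 1) with hs
      have e1 : ∑ j ∈ Finset.range (N + 1 + 1), a j = a 0 + s := by
        rw [Finset.sum_range_succ', hs]
        ring
      rw [e1]
      have e2 : c + (a 0 + s) • z = ∑ i, w i • (c + a 0 • z + s • p i) := by
        have h1 : ∀ i, w i • (c + a 0 • z + s • p i) = w i • (c + a 0 • z) + s • (w i • p i) :=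
          fun i => by rw [smul_add, smul_comm]
        rw [Finset.sum_congr rfl fun i _ => h1 i, Finset.sum_add_distrib, ← Finset.sum_smul, hw1,
          one_smul, ← Finset.smul_sum, hsum, add_smul, add_assoc]
      rw [e2]
      refine (normSq_sum_cvx hw0 hw1 _).trans ?_
      refine Finset.sum_le_sum fun i _ => mul_le_mul_of_nonneg_left ?_ (hw0 i)
      have h1 := hFx4 i (c + a 0 • z) (fun j => a (j + 1))
      have h2 := hFy4 i (c + a 0 • z) (fun j => a (j + 1))
      have e3 : c + a 0 • z + s • p i = (1 / 2 : ℝ) • (c + a 0 • z + s • x i)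
          + (1 / 2 : ℝ) • (c + a 0 • z + s • y i) := by
        rw [hpe]
        module
      have h3 := hG.cvx (c + a 0 • z + s • x i) (c + a 0 • z + s • y i) (1 / 2) (1 / 2)
        (by norm_num) (by norm_num) (by norm_num)
      rw [← e3] at h3
      linarith
    · intro c a k hk1 hk2
      beta_reduce
      rw [hval]
      rcases Nat.lt_or_ge 1 k with hk | hk
      · obtain ⟨k', rfl⟩ : ∃ k', k = k' + 1 := ⟨k - 1, by omega⟩
        have e1 : ∑ j ∈ Finset.Ico (k' + 1) (N + 1 + 1), a j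
            = ∑ j ∈ Finset.Ico k' (N + 1), a (j + 1) := by
          rw [Finset.sum_Ico_add' (fun j => a j) k' (N + 1) 1]
        rw [e1]
        have h0 : ∀ i, ε ^ 2 / 4 * (∑ j ∈ Finset.Ico k' (N + 1), a (j + 1)) ^ 2
            ≤ 1 / 2 * Fx i (c + a 0 • z, fun j => a (j + 1))
              + 1 / 2 * Fy i (c + a 0 • z, fun j => a (j + 1)) := by
          intro i
          have h1 := hFx5 i (c + a 0 • z) (fun j => a (j + 1)) k' (by omega) (by omega)
          have h2 := hFy5 i (c + a 0 • z) (fun j => a (j + 1)) k' (by omega) (by omega)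
          linarith
        calc ε ^ 2 / 4 * (∑ j ∈ Finset.Ico k' (N + 1), a (j + 1)) ^ 2
            = ∑ i, w i * (ε ^ 2 / 4 * (∑ j ∈ Finset.Ico k' (N + 1), a (j + 1)) ^ 2) := by
              rw [← Finset.sum_mul, hw1, one_mul]
          _ ≤ _ := Finset.sum_le_sum fun i _ => mul_le_mul_of_nonneg_left (h0 i) (hw0 i)
      · have hk : k = 1 := by omega
        subst hk
        set s := ∑ j ∈ Finset.range (N + 1), a (j + 1) with hs
        have e1 : ∑ j ∈ Finset.Ico 1 (N + 1 + 1), a j = s := by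
          rw [hs, Finset.range_eq_Ico, Finset.sum_Ico_add' (fun j => a j) 0 (N + 1) 1]
        rw [e1]
        have h0 : ∀ i, ε ^ 2 / 4 * s ^ 2
            ≤ 1 / 2 * Fx i (c + a 0 • z, fun j => a (j + 1))
              + 1 / 2 * Fy i (c + a 0 • z, fun j => a (j + 1)) := by
          intro i
          have h1 := hFx4 i (c + a 0 • z) (fun j => a (j + 1))
          have h2 := hFy4 i (c + a 0 • z) (fun j => a (j + 1))
          have h3 : ‖s • (x i - y i)‖ ≤ ‖c + a 0 • z + s • x i‖ + ‖c + a 0 • z + s • y i‖ := by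
            have e2 : s • (x i - y i) = (c + a 0 • z + s • x i) - (c + a 0 • z + s • y i) := by
              module
            rw [e2]
            exact norm_sub_le _ _
          rw [norm_smul, Real.norm_eq_abs] at h3
          have h4 : |s| * ε ≤ |s| * ‖x i - y i‖ := mul_le_mul_of_nonneg_left (hxy i) (abs_nonneg _)
          have h5 : (|s| * ε) ^ 2 ≤ (‖c + a 0 • z + s • x i‖ + ‖c + a 0 • z + s • y i‖) ^ 2 :=
            pow_le_pow_left₀ (by positivity) (h4.trans h3) 2
          have h6 : (|s| * ε) ^ 2 = s ^ 2 * ε ^ 2 := by rw [mul_pow, sq_abs]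
          rw [h6] at h5
          nlinarith [sq_nonneg (‖c + a 0 • z + s • x i‖ - ‖c + a 0 • z + s • y i‖)]
        calc ε ^ 2 / 4 * s ^ 2
            = ∑ i, w i * (ε ^ 2 / 4 * s ^ 2) := by
              rw [← Finset.sum_mul, hw1, one_mul]
          _ ≤ _ := Finset.sum_le_sum fun i _ => mul_le_mul_of_nonneg_left (h0 i) (hw0 i)

end

end Pool.Agent.Helper983.UNS
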