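import Pool.Agent.Helper983.UNS.Bdd
import Pool.Agent.Helper983.UNS.Tree

set_option autoImplicit false

namespace Pool.Agent.Helper983.UNS
open Finset Filter Topology

theorem exists_empty {X : Type} [NormedAddCommGroup X] [NormedSpace ℝ X] {M : ℕ} (hM : 0 < M)
    {q : ℝ} (hq0 : 0 ≤ q) (hq : q < M) (hG : Good (M + 1) q (fun x : X => ‖x‖ ^ 2))
    {ε : ℝ} (hε : 0 < ε) : ∃ N, Dr X ε N = ∅ := by
  by_contra hcon
  push Not at hcon
  choose z hz using hcon
  choose F hF1 hF2 hF3 hF4 hF5 using fun N => tree hG hε N (z N) (hz N)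
  set G : ℕ → E → ℝ := fun N v => F N (0, v) with hGdef
  have hnice : ∀ N, Nice (M + 1) q (G N) := by
    intro N
    refine ⟨(hF1 N).comp ((LinearMap.inr ℝ X (ℕ → ℝ)) ∘ₗ Finsupp.lcoeFun), fun j => ?_⟩
    simp only [hGdef]
    rw [Finsupp.single_eq_pi_single]
    exact hF2 N j
  set Fo : E → ℝ := fun v => limU (fun N => G N v) with hFo
  have hmem : ∀ v N, G N v ∈ Set.Icc 0 (ell v ^ 2) := fun v N =>
    ⟨(hnice N).good.nonneg v, (hnice N).le_ell v⟩
  have htend : ∀ v, Tendsto (fun N => G N v) (↑(hyperfilter ℕ) : Filter ℕ) (𝓝 (Fo v)) :=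
    fun v => tendsto_limU (hmem v)
  have hno : Nice (M + 1) q Fo :=
    ⟨Good.lim (l := (↑(hyperfilter ℕ) : Filter ℕ)) (fun N => (hnice N).good) htend,
      fun j => le_of_tendsto' (htend _) fun N => (hnice N).le_one j⟩
  have htail : ∀ (v : E) (k : ℕ), 1 ≤ k → ε ^ 2 / 4 * (tail k v) ^ 2 ≤ Fo v := by
    intro v k hk
    obtain ⟨R, -, hR⟩ := exists_bound v
    refine limU_eventually (n₀ := max k R) (hmem v) fun N hN => ?_
    have h1 := hF5 N 0 v k hk ((le_max_left _ _).trans hN)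
    rw [← tail_eq_sum_Ico k (N + 1) v (fun j hj => by
      have h2 := hR j (Finsupp.mem_support_iff.1 hj)
      have h3 : R ≤ N := (le_max_right _ _).trans hN
      omega)] at h1
    exact h1
  obtain ⟨F', h1, h2, h3, h4⟩ := model hno htail hM
  exact no_model hM hq0 hq h1 h2 h3 (by positivity : 0 < ε ^ 2 / 4) h4

end Pool.Agent.Helper983.UNS
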