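import Mathlib

set_option autoImplicit false

namespace Pool.Agent.Helper983.UNS
open Finset Filter Topology

/-- Squares of seminorms satisfying the averaged uniform normal structure inequality. -/
structure Good {V : Type} [AddCommGroup V] [Module ℝ V] (m : ℕ) (q : ℝ) (F : V → ℝ) : Prop where
  nonneg : ∀ v, 0 ≤ F v
  hom : ∀ (t : ℝ) (v : V), F (t • v) = t ^ 2 * F v
  cvx : ∀ (v w : V) (a b : ℝ), 0 ≤ a → 0 ≤ b → a + b = 1 →
    F (a • v + b • w) ≤ a * F v + b * F w
  star : ∀ z : Fin m → V, ∑ i, F (∑ j, (z i - z j)) ≤ q * ∑ i, ∑ j, F (z i - z j)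

variable {V W : Type} [AddCommGroup V] [Module ℝ V] [AddCommGroup W] [Module ℝ W]
variable {m : ℕ} {q : ℝ}

lemma Good.comp {F : V → ℝ} (h : Good m q F) (T : W →ₗ[ℝ] V) :
    Good m q (fun w => F (T w)) where
  nonneg w := h.nonneg _
  hom t w := by rw [map_smul, h.hom]
  cvx v w a b ha hb hab := by
    rw [map_add, map_smul, map_smul]
    exact h.cvx _ _ _ _ ha hb hab
  star z := by
    have := h.star (fun i => T (z i))
    simpa only [map_sum, map_sub] using this

lemma Good.sum {ι : Type} [Fintype ι] {F : ι → V → ℝ} (h : ∀ k, Good m q (F k))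
    {w : ι → ℝ} (hw : ∀ k, 0 ≤ w k) : Good m q (fun v => ∑ k, w k * F k v) where
  nonneg v := Finset.sum_nonneg fun k _ => mul_nonneg (hw k) ((h k).nonneg v)
  hom t v := by
    rw [Finset.mul_sum]
    refine Finset.sum_congr rfl fun k _ => ?_
    rw [(h k).hom]
    ring
  cvx v u a b ha hb hab := by
    rw [Finset.mul_sum, Finset.mul_sum, ← Finset.sum_add_distrib]
    refine Finset.sum_le_sum fun k _ => ?_
    have := mul_le_mul_of_nonneg_left ((h k).cvx v u a b ha hb hab) (hw k)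
    linarith
  star z := by
    have h1 : ∀ k, w k * ∑ i, F k (∑ j, (z i - z j)) ≤ w k * (q * ∑ i, ∑ j, F k (z i - z j)) :=
      fun k => mul_le_mul_of_nonneg_left ((h k).star z) (hw k)
    have h2 := Finset.sum_le_sum fun k (_ : k ∈ (Finset.univ : Finset ι)) => h1 k
    have e1 : ∑ i, ∑ k, w k * F k (∑ j, (z i - z j)) = ∑ k, w k * ∑ i, F k (∑ j, (z i - z j)) := by
      rw [Finset.sum_comm]
      refine Finset.sum_congr rfl fun k _ => ?_
      rw [Finset.mul_sum]
    have e2 : q * ∑ i, ∑ j, ∑ k, w k * F k (z i - z j)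
        = ∑ k, w k * (q * ∑ i, ∑ j, F k (z i - z j)) := by
      have : ∀ i, ∑ j, ∑ k, w k * F k (z i - z j) = ∑ k, ∑ j, w k * F k (z i - z j) :=
        fun i => Finset.sum_comm
      rw [Finset.sum_congr rfl fun i _ => this i, Finset.sum_comm, Finset.mul_sum]
      refine Finset.sum_congr rfl fun k _ => ?_
      have : ∀ i, ∑ j, w k * F k (z i - z j) = w k * ∑ j, F k (z i - z j) :=
        fun i => (Finset.mul_sum _ _ _).symm
      rw [Finset.sum_congr rfl fun i _ => this i, ← Finset.mul_sum]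
      ring
    rw [e1, e2]
    exact h2

lemma Good.lim {ι : Type} {l : Filter ι} [l.NeBot] {F : ι → V → ℝ} (h : ∀ k, Good m q (F k))
    {F' : V → ℝ} (hF : ∀ v, Tendsto (fun k => F k v) l (𝓝 (F' v))) : Good m q F' where
  nonneg v := ge_of_tendsto' (hF v) fun k => (h k).nonneg v
  hom t v := by
    refine tendsto_nhds_unique (hF (t • v)) ?_
    simp only [(h _).hom]
    exact (hF v).const_mul _
  cvx v u a b ha hb hab :=
    le_of_tendsto_of_tendsto' (hF _) (((hF v).const_mul a).add ((hF u).const_mul b))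
      fun k => (h k).cvx v u a b ha hb hab
  star z := by
    refine le_of_tendsto_of_tendsto' (tendsto_finsetSum _ fun i _ => hF _)
      ((tendsto_finsetSum _ fun i _ => tendsto_finsetSum _ fun j _ => hF _).const_mul q)
      fun k => (h k).star z

lemma Good.zero {F : V → ℝ} (h : Good m q F) : F 0 = 0 := by
  have := h.hom 0 0
  simpa using this

lemma Good.neg {F : V → ℝ} (h : Good m q F) (v : V) : F (-v) = F v := by
  have := h.hom (-1) v
  simpa using this

lemma Good.tri {F : V → ℝ} (h : Good m q F) (v w : V) :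
    √(F (v + w)) ≤ √(F v) + √(F w) := by
  apply le_of_forall_pos_le_add
  intro δ hδ
  set s := √(F v) + δ / 2 with hs
  set t := √(F w) + δ / 2 with ht
  have hs0 : 0 < s := by positivity
  have ht0 : 0 < t := by positivity
  have hFv : F v ≤ s ^ 2 := by
    calc F v = √(F v) ^ 2 := (Real.sq_sqrt (h.nonneg v)).symm
      _ ≤ s ^ 2 := pow_le_pow_left₀ (Real.sqrt_nonneg _) (by rw [hs]; linarith) 2
  have hFw : F w ≤ t ^ 2 := by
    calc F w = √(F w) ^ 2 := (Real.sq_sqrt (h.nonneg w)).symm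
      _ ≤ t ^ 2 := pow_le_pow_left₀ (Real.sqrt_nonneg _) (by rw [ht]; linarith) 2
  have e : v + w = (s + t) • ((s / (s + t)) • (s⁻¹ • v) + (t / (s + t)) • (t⁻¹ • w)) := by
    rw [smul_add, smul_smul, smul_smul, smul_smul, smul_smul]
    have h1 : (s + t) * (s / (s + t)) * s⁻¹ = 1 := by field_simp
    have h2 : (s + t) * (t / (s + t)) * t⁻¹ = 1 := by field_simp
    rw [h1, h2, one_smul, one_smul]
  have h1 : F (v + w) ≤ (s + t) ^ 2 := by
    rw [e, h.hom]
    have h2 := h.cvx (s⁻¹ • v) (t⁻¹ • w) (s / (s + t)) (t / (s + t)) (by positivity)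
      (by positivity) (by field_simp)
    rw [h.hom, h.hom] at h2
    have h3 : s⁻¹ ^ 2 * F v ≤ 1 := by
      rw [inv_pow, inv_mul_le_iff₀ (by positivity)]
      linarith
    have h4 : t⁻¹ ^ 2 * F w ≤ 1 := by
      rw [inv_pow, inv_mul_le_iff₀ (by positivity)]
      linarith
    have h5 : s / (s + t) * (s⁻¹ ^ 2 * F v) + t / (s + t) * (t⁻¹ ^ 2 * F w) ≤ 1 := by
      have h6 : s / (s + t) * (s⁻¹ ^ 2 * F v) ≤ s / (s + t) * 1 :=
        mul_le_mul_of_nonneg_left h3 (by positivity)
      have h7 : t / (s + t) * (t⁻¹ ^ 2 * F w) ≤ t / (s + t) * 1 :=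
        mul_le_mul_of_nonneg_left h4 (by positivity)
      have h8 : s / (s + t) * 1 + t / (s + t) * 1 = 1 := by field_simp
      linarith
    have h9 : (s + t) ^ 2 * F ((s / (s + t)) • (s⁻¹ • v) + (t / (s + t)) • (t⁻¹ • w))
        ≤ (s + t) ^ 2 * 1 := mul_le_mul_of_nonneg_left (h2.trans h5) (by positivity)
    linarith
  calc √(F (v + w)) ≤ √((s + t) ^ 2) := Real.sqrt_le_sqrt h1
    _ = s + t := Real.sqrt_sq (by positivity)
    _ = √(F v) + √(F w) + δ := by rw [hs, ht]; ring

lemma Good.sqrt_smul {F : V → ℝ} (h : Good m q F) (t : ℝ) (v : V) :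
    √(F (t • v)) = |t| * √(F v) := by
  rw [h.hom, Real.sqrt_mul (sq_nonneg t), Real.sqrt_sq_eq_abs]

lemma Good.tri_sub {F : V → ℝ} (h : Good m q F) (v w : V) :
    √(F v) ≤ √(F w) + √(F (v - w)) := by
  have := h.tri w (v - w)
  rwa [add_sub_cancel] at this

lemma Good.tri_sum {F : V → ℝ} (h : Good m q F) {ι : Type} (s : Finset ι) (v : ι → V) :
    √(F (∑ i ∈ s, v i)) ≤ ∑ i ∈ s, √(F (v i)) := by
  classical
  induction s using Finset.induction_on with
  | empty => simp [h.zero]
  | insert a s ha ih =>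
    rw [Finset.sum_insert ha, Finset.sum_insert ha]
    exact (h.tri _ _).trans (by linarith)

/-- Jensen for uniform averages -/
lemma Good.jensen {F : V → ℝ} (h : Good m q F) {ι : Type} (s : Finset ι) (hs : s.Nonempty)
    (v : ι → V) : F ((s.card : ℝ)⁻¹ • ∑ i ∈ s, v i) ≤ (s.card : ℝ)⁻¹ * ∑ i ∈ s, F (v i) := by
  have hc : ConvexOn ℝ Set.univ F := ⟨convex_univ, fun x _ y _ a b ha hb hab => by
    simpa using h.cvx x y a b ha hb hab⟩
  have hcard : (0 : ℝ) < s.card := by exact_mod_cast hs.card_pos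
  have := hc.map_sum_le (t := s) (w := fun _ => (s.card : ℝ)⁻¹) (p := v)
    (fun _ _ => by positivity) (by simp [hcard.ne']) (fun _ _ => Set.mem_univ _)
  rw [← Finset.smul_sum] at this
  refine this.trans (le_of_eq ?_)
  rw [Finset.mul_sum]
  rfl

end Pool.Agent.Helper983.UNS
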