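import Pool.Agent.Helper983.UNS.Tree

set_option autoImplicit false

namespace Pool.Agent.Helper983.UNS
open Finset Filter Topology

variable {X : Type} [NormedAddCommGroup X] [NormedSpace ℝ X]

lemma infDist_cvx {C : Set X} (hC : Convex ℝ C) (hne : C.Nonempty) (x y : X) {a b : ℝ}
    (ha : 0 ≤ a) (hb : 0 ≤ b) (hab : a + b = 1) :
    Metric.infDist (a • x + b • y) C ≤ a * Metric.infDist x C + b * Metric.infDist y C := by
  apply le_of_forall_pos_le_add
  intro δ hδ
  obtain ⟨x', hx', hx⟩ := (Metric.infDist_lt_iff hne).1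
    (lt_add_of_pos_right (Metric.infDist x C) hδ)
  obtain ⟨y', hy', hy⟩ := (Metric.infDist_lt_iff hne).1
    (lt_add_of_pos_right (Metric.infDist y C) hδ)
  have h1 : Metric.infDist (a • x + b • y) C ≤ dist (a • x + b • y) (a • x' + b • y') :=
    Metric.infDist_le_dist_of_mem (hC hx' hy' ha hb hab)
  have h2 : dist (a • x + b • y) (a • x' + b • y') ≤ a * dist x x' + b * dist y y' := by
    rw [dist_eq_norm, dist_eq_norm, dist_eq_norm]
    have e1 : a • x + b • y - (a • x' + b • y') = a • (x - x') + b • (y - y') := by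
      simp only [smul_sub]
      abel
    rw [e1]
    refine (norm_add_le _ _).trans (le_of_eq ?_)
    rw [norm_smul, norm_smul, Real.norm_of_nonneg ha, Real.norm_of_nonneg hb]
  have h3 : a * dist x x' ≤ a * (Metric.infDist x C + δ) := mul_le_mul_of_nonneg_left hx.le ha
  have h4 : b * dist y y' ≤ b * (Metric.infDist y C + δ) := mul_le_mul_of_nonneg_left hy.le hb
  have h5 : a * (Metric.infDist x C + δ) + b * (Metric.infDist y C + δ)
      = a * Metric.infDist x C + b * Metric.infDist y C + (a + b) * δ := by ring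
  rw [hab, one_mul] at h5
  linarith

lemma Dr_convex (ε : ℝ) : ∀ N, Convex ℝ (Dr X ε N)
  | 0 => convex_closedBall _ _
  | _ + 1 => convex_convexHull _ _

lemma Dr_symm (ε : ℝ) : ∀ (N : ℕ) (z : X), z ∈ Dr X ε N → -z ∈ Dr X ε N := by
  intro N
  induction N with
  | zero =>
    intro z hz
    have h1 := mem_closedBall_zero_iff.1 hz
    exact mem_closedBall_zero_iff.2 (by rwa [norm_neg])
  | succ N ih =>
    intro z hz
    have h1 : Dr X ε (N + 1) ⊆ (fun z : X => (-1 : ℝ) • z) ⁻¹' (Dr X ε (N + 1)) := by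
      refine convexHull_min ?_ ?_
      · rintro _ ⟨x, hx, y, hy, hxy, rfl⟩
        refine subset_convexHull ℝ _ ⟨-x, ih x hx, -y, ih y hy, ?_, ?_⟩
        · rw [← neg_sub', norm_neg]
          exact hxy
        · simp only [smul_add]
          module
      · intro u hu v hv a b ha hb hab
        have h2 := Dr_convex ε (N + 1) hu hv ha hb hab
        simp only [Set.mem_preimage] at hu hv ⊢
        convert h2 using 1
        module
    have h2 := h1 hz
    simp only [Set.mem_preimage] at h2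
    rwa [neg_one_smul] at h2

lemma Dr_zero_mem (ε : ℝ) (N : ℕ) (h : (Dr X ε N).Nonempty) : (0 : X) ∈ Dr X ε N := by
  obtain ⟨z, hz⟩ := h
  have h1 := Dr_convex ε N hz (Dr_symm ε N z hz) (by norm_num : (0 : ℝ) ≤ 1 / 2)
    (by norm_num : (0 : ℝ) ≤ 1 / 2) (by norm_num)
  convert h1 using 1
  module

lemma infDist_neg {C : Set X} (hC : ∀ z ∈ C, -z ∈ C) (x : X) :
    Metric.infDist (-x) C = Metric.infDist x C := by
  have key : ∀ x : X, Metric.infDist (-x) C ≤ Metric.infDist x C := by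
    intro x
    rcases C.eq_empty_or_nonempty with h | hne
    · subst h
      simp
    apply le_of_forall_pos_le_add
    intro δ hδ
    obtain ⟨x', hx', hx⟩ := (Metric.infDist_lt_iff hne).1
      (lt_add_of_pos_right (Metric.infDist x C) hδ)
    refine (Metric.infDist_le_dist_of_mem (hC x' hx')).trans ?_
    rw [dist_neg_neg]
    exact hx.le
  apply le_antisymm (key x)
  have := key (-x)
  rwa [neg_neg] at this

/-- sum of distances to the derived sets -/
noncomputable def fs (ε : ℝ) (n : ℕ) (x : X) : ℝ :=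
  ∑ k ∈ Finset.range n, Metric.infDist x (Dr X ε k)

theorem fs_gap {ε : ℝ} (hε : 0 < ε) {n : ℕ} (hn : Dr X ε n = ∅)
    (hmin : ∀ k < n, (Dr X ε k).Nonempty) :
    ∃ δ : ℝ, 0 < δ ∧ ∀ x y : X, ‖x‖ ≤ 1 → ‖y‖ ≤ 1 → 2 * ε ≤ ‖x - y‖ →
      fs ε n ((1 / 2 : ℝ) • x + (1 / 2 : ℝ) • y)
        ≤ 1 / 2 * fs ε n x + 1 / 2 * fs ε n y - δ := by
  have hn0 : 0 < n := by
    rcases Nat.eq_zero_or_pos n with h | h
    · exfalso
      subst h
      have : (0 : X) ∈ Dr X ε 0 := mem_closedBall_zero_iff.2 (by simp)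
      rw [hn] at this
      exact this
    · exact h
  set δ := ε / (6 * 2 ^ n) with hδ
  have hδ0 : 0 < δ := by positivity
  refine ⟨δ, hδ0, fun x y hx hy hxy => ?_⟩
  by_contra hcon
  push Not at hcon
  set mm := (1 / 2 : ℝ) • x + (1 / 2 : ℝ) • y with hmm
  have hg0 : ∀ k ∈ Finset.range n, 0 ≤ 1 / 2 * Metric.infDist x (Dr X ε k)
      + 1 / 2 * Metric.infDist y (Dr X ε k) - Metric.infDist mm (Dr X ε k) := by
    intro k hk
    have := infDist_cvx (Dr_convex ε k) (hmin k (Finset.mem_range.1 hk)) x y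
      (by norm_num : (0 : ℝ) ≤ 1 / 2) (by norm_num : (0 : ℝ) ≤ 1 / 2) (by norm_num)
    linarith
  have hg : ∀ k < n, 1 / 2 * Metric.infDist x (Dr X ε k)
      + 1 / 2 * Metric.infDist y (Dr X ε k) - Metric.infDist mm (Dr X ε k) < δ := by
    intro k hk
    have h1 := Finset.single_le_sum hg0 (Finset.mem_range.2 hk)
    rw [Finset.sum_sub_distrib, Finset.sum_add_distrib, ← Finset.mul_sum, ← Finset.mul_sum] at h1
    simp only [fs] at hcon
    linarith
  have hmid : ∀ (k : ℕ) (t : ℝ), k < n → t ≤ ε / 2 → Metric.infDist x (Dr X ε k) < t →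
      Metric.infDist y (Dr X ε k) < t → ∃ m' ∈ Dr X ε (k + 1), dist mm m' < t := by
    intro k t hk ht h1 h2
    obtain ⟨x', hx', hxx⟩ := (Metric.infDist_lt_iff (hmin k hk)).1 h1
    obtain ⟨y', hy', hyy⟩ := (Metric.infDist_lt_iff (hmin k hk)).1 h2
    refine ⟨(1 / 2 : ℝ) • (x' + y'), subset_convexHull ℝ _ ⟨x', hx', y', hy', ?_, rfl⟩, ?_⟩
    · have h3 : ‖x - y‖ ≤ ‖x - x'‖ + ‖x' - y'‖ + ‖y' - y‖ := by
        have e1 : x - y = (x - x') + (x' - y') + (y' - y) := by abel
        rw [e1]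
        exact (norm_add_le _ _).trans (add_le_add_left (norm_add_le _ _) _)
      rw [dist_eq_norm] at hxx hyy
      rw [norm_sub_rev] at hyy
      linarith
    · rw [dist_eq_norm] at hxx hyy ⊢
      have e1 : mm - (1 / 2 : ℝ) • (x' + y') = (1 / 2 : ℝ) • (x - x') + (1 / 2 : ℝ) • (y - y') := by
        rw [hmm]
        module
      rw [e1]
      refine lt_of_le_of_lt (norm_add_le _ _) ?_
      rw [norm_smul, norm_smul]
      norm_num
      linarith
  have ht : ∀ k < n, (3 * 2 ^ k - 2) * δ ≤ ε / 2 := by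
    intro k hk
    have h1 : (2 : ℝ) ^ k ≤ 2 ^ n := pow_le_pow_right₀ (by norm_num) hk.le
    have h2 : 3 * (2 : ℝ) ^ n * δ = ε / 2 := by
      rw [hδ]
      field_simp
      norm_num
    have h3 : (3 * 2 ^ k - 2) * δ ≤ 3 * (2 : ℝ) ^ n * δ :=
      mul_le_mul_of_nonneg_right (by linarith) hδ0.le
    linarith
  have hind : ∀ k < n, Metric.infDist x (Dr X ε k) < (3 * 2 ^ k - 2) * δ ∧
      Metric.infDist y (Dr X ε k) < (3 * 2 ^ k - 2) * δ := by
    intro k
    induction k with
    | zero =>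
      intro _
      have h1 : Metric.infDist x (Dr X ε 0) = 0 :=
        Metric.infDist_zero_of_mem (mem_closedBall_zero_iff.2 hx)
      have h2 : Metric.infDist y (Dr X ε 0) = 0 :=
        Metric.infDist_zero_of_mem (mem_closedBall_zero_iff.2 hy)
      rw [h1, h2]
      norm_num
      exact hδ0
    | succ k ih =>
      intro hk
      obtain ⟨h1, h2⟩ := ih (by omega)
      obtain ⟨m', hm', hd⟩ := hmid k _ (by omega) (ht k (by omega)) h1 h2
      have h3 : Metric.infDist mm (Dr X ε (k + 1)) < (3 * 2 ^ k - 2) * δ :=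
        lt_of_le_of_lt (Metric.infDist_le_dist_of_mem hm') hd
      have h4 := hg (k + 1) hk
      have h5 : 0 ≤ Metric.infDist x (Dr X ε (k + 1)) := Metric.infDist_nonneg
      have h6 : 0 ≤ Metric.infDist y (Dr X ε (k + 1)) := Metric.infDist_nonneg
      have h7 : (3 * 2 ^ (k + 1) - 2) * δ = 2 * ((3 * 2 ^ k - 2) * δ) + 2 * δ := by
        rw [pow_succ]; ring
      rw [h7]
      constructor <;> linarith
  obtain ⟨k, rfl⟩ : ∃ k, n = k + 1 := ⟨n - 1, by omega⟩
  obtain ⟨h1, h2⟩ := hind k (by omega)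
  obtain ⟨m', hm', -⟩ := hmid k _ (by omega) (ht k (by omega)) h1 h2
  rw [hn] at hm'
  exact hm'

lemma fs_nonneg (ε : ℝ) (n : ℕ) (x : X) : 0 ≤ fs ε n x :=
  Finset.sum_nonneg fun _ _ => Metric.infDist_nonneg

lemma fs_lip (ε : ℝ) (n : ℕ) (x y : X) :
    fs ε n x ≤ fs ε n y + n * ‖x - y‖ := by
  have h1 : ∀ k ∈ Finset.range n, Metric.infDist x (Dr X ε k)
      ≤ Metric.infDist y (Dr X ε k) + ‖x - y‖ := by
    intro k _
    rw [← dist_eq_norm]
    exact Metric.infDist_le_infDist_add_dist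
  refine (Finset.sum_le_sum h1).trans (le_of_eq ?_)
  rw [Finset.sum_add_distrib, Finset.sum_const, Finset.card_range, nsmul_eq_mul]
  rfl

lemma fs_neg (ε : ℝ) (n : ℕ) (x : X) : fs ε n (-x) = fs ε n x :=
  Finset.sum_congr rfl fun k _ => infDist_neg (Dr_symm ε k) x

lemma fs_cvx {ε : ℝ} {n : ℕ} (hmin : ∀ k < n, (Dr X ε k).Nonempty) (x y : X) {a b : ℝ}
    (ha : 0 ≤ a) (hb : 0 ≤ b) (hab : a + b = 1) :
    fs ε n (a • x + b • y) ≤ a * fs ε n x + b * fs ε n y := by
  simp only [fs]
  rw [Finset.mul_sum, Finset.mul_sum, ← Finset.sum_add_distrib]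
  exact Finset.sum_le_sum fun k hk => infDist_cvx (Dr_convex ε k)
    (hmin k (Finset.mem_range.1 hk)) x y ha hb hab

lemma fs_zero {ε : ℝ} {n : ℕ} (hmin : ∀ k < n, (Dr X ε k).Nonempty) :
    fs ε n (0 : X) = 0 :=
  Finset.sum_eq_zero fun k hk => Metric.infDist_zero_of_mem
    (Dr_zero_mem ε k (hmin k (Finset.mem_range.1 hk)))

/-- Renorming from emptiness of the iterated derivatives. -/
theorem renorm (h : ∀ ε : ℝ, 0 < ε → ∃ N, Dr X ε N = ∅) :
      ∃ N : X → ℝ,
        (∀ x y : X, N (x + y) ≤ N x + N y) ∧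
        (∀ (t : ℝ) (x : X), N (t • x) = |t| * N x) ∧
        (∃ a b : ℝ, 0 < a ∧ 0 < b ∧ ∀ x : X, a * ‖x‖ ≤ N x ∧ N x ≤ b * ‖x‖) ∧
        (∀ ε : ℝ, 0 < ε → ∃ δ : ℝ, 0 < δ ∧
          ∀ x y : X, N x ≤ 1 → N y ≤ 1 → ε ≤ N (x - y) → N (x + y) ≤ 2 - δ) := by
  classical
  set ep : ℕ → ℝ := fun j => 1 / ((j : ℝ) + 1) with hep
  have hep0 : ∀ j, 0 < ep j := fun j => by simp only [hep]; positivity
  set n : ℕ → ℕ := fun j => Nat.find (h (ep j) (hep0 j)) with hn
  have hnE : ∀ j, Dr X (ep j) (n j) = ∅ := fun j => Nat.find_spec (h (ep j) (hep0 j))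
  have hnN : ∀ j, ∀ k < n j, (Dr X (ep j) k).Nonempty := fun j k hk =>
    Set.nonempty_iff_ne_empty.2 (Nat.find_min (h (ep j) (hep0 j)) hk)
  have hn0 : ∀ j, 0 < n j := by
    intro j
    rcases Nat.eq_zero_or_pos (n j) with h0 | h0
    · exfalso
      have h1 : (0 : X) ∈ Dr X (ep j) 0 := mem_closedBall_zero_iff.2 (by simp)
      have h2 := hnE j
      rw [h0] at h2
      rw [h2] at h1
      exact h1
    · exact h0
  have hn0' : ∀ j, (0 : ℝ) < n j := fun j => by exact_mod_cast hn0 j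
  -- weights
  set w : ℕ → ℝ := fun j => (1 / 2 : ℝ) ^ (j + 1) with hw
  have hw0 : ∀ j, 0 < w j := fun j => by simp only [hw]; positivity
  have hwsum : HasSum w 1 := by
    have := hasSum_geometric_two'  (1 : ℝ)
    convert this using 1
    funext j
    simp only [hw, pow_succ]
    field_simp
    rw [one_div, inv_pow, inv_mul_cancel₀ (by positivity)]
  set g : ℕ → X → ℝ := fun j x => (1 / (n j : ℝ)) * fs (ep j) (n j) x with hg
  have hglip : ∀ j x y, g j x ≤ g j y + ‖x - y‖ := by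
    intro j x y
    simp only [hg]
    have h1 := mul_le_mul_of_nonneg_left (fs_lip (ep j) (n j) x y)
      (by have := hn0' j; positivity : 0 ≤ 1 / (n j : ℝ))
    have h2 : 1 / (n j : ℝ) * (fs (ep j) (n j) y + n j * ‖x - y‖)
        = 1 / (n j : ℝ) * fs (ep j) (n j) y + ‖x - y‖ := by
      have := (hn0' j).ne'
      field_simp
    linarith
  have hg0 : ∀ j x, 0 ≤ g j x := fun j x => mul_nonneg (by have := hn0' j; positivity)
    (fs_nonneg _ _ _)
  have hgz : ∀ j, g j (0 : X) = 0 := fun j => by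
    simp only [hg]
    rw [fs_zero (hnN j), mul_zero]
  have hgle : ∀ j x, g j x ≤ ‖x‖ := by
    intro j x
    have := hglip j x 0
    rw [hgz, sub_zero] at this
    linarith
  have hsummable : ∀ x : X, Summable (fun j => w j * g j x) := by
    intro x
    refine Summable.of_nonneg_of_le (fun j => mul_nonneg (hw0 j).le (hg0 j x))
      (fun j => mul_le_mul_of_nonneg_left (hgle j x) (hw0 j).le) (hwsum.summable.mul_right _)
  set F : X → ℝ := fun x => ‖x‖ + ∑' j, w j * g j x with hF
  have hFlip : ∀ x y, F x ≤ F y + 2 * ‖x - y‖ := by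
    intro x y
    have h1 : ‖x‖ ≤ ‖y‖ + ‖x - y‖ := by
      have := norm_add_le y (x - y)
      rwa [add_sub_cancel] at this
    have h2 : ∑' j, w j * g j x ≤ ∑' j, (w j * g j y + w j * ‖x - y‖) := by
      refine (hsummable x).tsum_le_tsum (fun j => ?_) ((hsummable y).add
        (hwsum.summable.mul_right _))
      rw [← mul_add]
      exact mul_le_mul_of_nonneg_left (hglip j x y) (hw0 j).le
    rw [(hsummable y).tsum_add (hwsum.summable.mul_right _), tsum_mul_right, hwsum.tsum_eq,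
      one_mul] at h2
    simp only [hF]
    linarith
  have hFz : F 0 = 0 := by
    simp only [hF, hgz, mul_zero, tsum_zero, norm_zero, add_zero]
  have hFge : ∀ x, ‖x‖ ≤ F x := fun x => by
    simp only [hF]
    have : 0 ≤ ∑' j, w j * g j x := tsum_nonneg fun j => mul_nonneg (hw0 j).le (hg0 j x)
    linarith
  have hFle : ∀ x, F x ≤ 2 * ‖x‖ := fun x => by
    have := hFlip x 0
    rw [hFz, sub_zero] at this
    linarith
  have hFneg : ∀ x, F (-x) = F x := fun x => by
    simp only [hF, hg, norm_neg, fs_neg]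
  have hFcvx : ∀ x y (a b : ℝ), 0 ≤ a → 0 ≤ b → a + b = 1 →
      F (a • x + b • y) ≤ a * F x + b * F y := by
    intro x y a b ha hb hab
    have h1 : ‖a • x + b • y‖ ≤ a * ‖x‖ + b * ‖y‖ := by
      refine (norm_add_le _ _).trans (le_of_eq ?_)
      rw [norm_smul, norm_smul, Real.norm_of_nonneg ha, Real.norm_of_nonneg hb]
    have h2 : ∑' j, w j * g j (a • x + b • y) ≤ ∑' j, (a * (w j * g j x) + b * (w j * g j y)) := by
      refine (hsummable _).tsum_le_tsum (fun j => ?_) (((hsummable x).mul_left a).add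
        ((hsummable y).mul_left b))
      have h3 := fs_cvx (hnN j) x y ha hb hab
      have h4 : g j (a • x + b • y) ≤ a * g j x + b * g j y := by
        simp only [hg]
        have := mul_le_mul_of_nonneg_left h3 (by have := hn0' j; positivity : 0 ≤ 1 / (n j : ℝ))
        linarith
      have := mul_le_mul_of_nonneg_left h4 (hw0 j).le
      linarith
    rw [((hsummable x).mul_left a).tsum_add ((hsummable y).mul_left b), tsum_mul_left,
      tsum_mul_left] at h2
    simp only [hF]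
    linarith
  have hFgap : ∀ j, ∃ δ : ℝ, 0 < δ ∧ ∀ x y : X, ‖x‖ ≤ 1 → ‖y‖ ≤ 1 → 2 * ep j ≤ ‖x - y‖ →
      F ((1 / 2 : ℝ) • x + (1 / 2 : ℝ) • y) ≤ 1 / 2 * F x + 1 / 2 * F y - δ := by
    intro j
    obtain ⟨δ, hδ0, hδ⟩ := fs_gap (hep0 j) (hnE j) (hnN j)
    refine ⟨w j * (1 / (n j : ℝ) * δ), mul_pos (hw0 j) (mul_pos (by have := hn0' j; positivity)
      hδ0), fun x y hx hy hxy => ?_⟩
    have h1 : ‖(1 / 2 : ℝ) • x + (1 / 2 : ℝ) • y‖ ≤ 1 / 2 * ‖x‖ + 1 / 2 * ‖y‖ := by
      refine (norm_add_le _ _).trans (le_of_eq ?_)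
      rw [norm_smul, norm_smul, Real.norm_of_nonneg (by norm_num : (0 : ℝ) ≤ 1 / 2)]
    have hsingle : HasSum (fun i => if i = j then w j * (1 / (n j : ℝ) * δ) else 0)
        (w j * (1 / (n j : ℝ) * δ)) := hasSum_ite_eq j _
    have h2 : ∑' i, w i * g i ((1 / 2 : ℝ) • x + (1 / 2 : ℝ) • y)
        ≤ ∑' i, (1 / 2 * (w i * g i x) + 1 / 2 * (w i * g i y)
          - (if i = j then w j * (1 / (n j : ℝ) * δ) else 0)) := by
      refine (hsummable _).tsum_le_tsum (fun i => ?_) ((((hsummable x).mul_left (1 / 2)).add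
        ((hsummable y).mul_left (1 / 2))).sub hsingle.summable)
      by_cases hij : i = j
      · subst hij
        rw [if_pos rfl]
        have h3 := hδ x y hx hy hxy
        have h4 := mul_le_mul_of_nonneg_left h3
          (by have := hn0' i; positivity : 0 ≤ 1 / (n i : ℝ))
        have h5 := mul_le_mul_of_nonneg_left h4 (hw0 i).le
        simp only [hg]
        linarith
      · rw [if_neg hij, sub_zero]
        have h3 := fs_cvx (hnN i) x y (by norm_num : (0 : ℝ) ≤ 1 / 2)
          (by norm_num : (0 : ℝ) ≤ 1 / 2) (by norm_num)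
        have h4 := mul_le_mul_of_nonneg_left h3
          (by have := hn0' i; positivity : 0 ≤ 1 / (n i : ℝ))
        have h5 := mul_le_mul_of_nonneg_left h4 (hw0 i).le
        simp only [hg]
        linarith
    rw [(((hsummable x).mul_left (1 / 2)).add ((hsummable y).mul_left (1 / 2))).tsum_sub
        hsingle.summable, ((hsummable x).mul_left (1 / 2)).tsum_add
        ((hsummable y).mul_left (1 / 2)), tsum_mul_left, tsum_mul_left, hsingle.tsum_eq] at h2
    simp only [hF]
    linarith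
  -- gauge
  set Kb : Set X := {x | F x ≤ 1} with hKb
  have hKconv : Convex ℝ Kb := by
    intro x hx y hy a b ha hb hab
    have h1 := hFcvx x y a b ha hb hab
    have h2 : a * F x ≤ a * 1 := mul_le_mul_of_nonneg_left hx ha
    have h3 : b * F y ≤ b * 1 := mul_le_mul_of_nonneg_left hy hb
    show F (a • x + b • y) ≤ 1
    linarith
  have hK0 : (0 : X) ∈ Kb := by
    show F 0 ≤ 1
    rw [hFz]; norm_num
  have hball : Metric.ball (0 : X) (1 / 2) ⊆ Kb := by
    intro x hx
    rw [mem_ball_zero_iff] at hx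
    show F x ≤ 1
    have := hFle x
    linarith
  have hnhds : Kb ∈ 𝓝 (0 : X) :=
    Filter.mem_of_superset (Metric.ball_mem_nhds _ (by norm_num)) hball
  have hKabs : Absorbent ℝ Kb := absorbent_nhds_zero hnhds
  have hKneg : ∀ x ∈ Kb, -x ∈ Kb := by
    intro x hx
    show F (-x) ≤ 1
    rw [hFneg]
    exact hx
  have hKbal : Balanced ℝ Kb := (balanced_iff_neg_mem hKconv).2 hKneg
  have hKsub : Kb ⊆ Metric.closedBall 0 1 := by
    intro x hx
    rw [mem_closedBall_zero_iff]
    exact (hFge x).trans hx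
  have hFcont : Continuous F := by
    have : LipschitzWith 2 F := by
      refine LipschitzWith.of_le_add_mul 2 fun x y => ?_
      rw [dist_eq_norm]
      exact hFlip x y
    exact this.continuous
  have hKclosed : IsClosed Kb := isClosed_le hFcont continuous_const
  have hgauge1 : ∀ x, gauge Kb x ≤ 1 → F x ≤ 1 := by
    intro x hx
    have := mem_closure_of_gauge_le_one hKconv hK0 hKabs hx
    rw [hKclosed.closure_eq] at this
    exact this
  have hlow : ∀ x, ‖x‖ ≤ gauge Kb x := by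
    intro x
    have := le_gauge_of_subset_closedBall (x := x) hKabs zero_le_one hKsub
    rwa [div_one] at this
  have hup : ∀ x, gauge Kb x ≤ 2 * ‖x‖ := by
    intro x
    have := mul_gauge_le_norm (x := x) hball
    linarith
  refine ⟨gauge Kb, fun x y => gauge_add_le hKconv hKabs x y, fun t x => ?_,
    ⟨1, 2, one_pos, two_pos, fun x => ⟨by rw [one_mul]; exact hlow x, hup x⟩⟩, ?_⟩
  · rw [gauge_smul hKbal, Real.norm_eq_abs]
  · intro ε hε
    obtain ⟨j, hj⟩ := exists_nat_gt (4 / ε)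
    have hj' : 2 * ep j ≤ ε / 2 := by
      simp only [hep]
      rw [div_lt_iff₀ hε] at hj
      have : (0 : ℝ) < (j : ℝ) + 1 := by positivity
      rw [mul_one_div, div_le_iff₀ this]
      linarith
    obtain ⟨δ, hδ0, hδ⟩ := hFgap j
    set s := δ / 2 with hs
    have hs0 : 0 < s := by positivity
    refine ⟨2 * s / (1 + s), by positivity, fun x y hx hy hxy => ?_⟩
    have hFx := hgauge1 x hx
    have hFy := hgauge1 y hy
    have hx1 : ‖x‖ ≤ 1 := (hFge x).trans hFx
    have hy1 : ‖y‖ ≤ 1 := (hFge y).trans hFy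
    have hxy1 : 2 * ep j ≤ ‖x - y‖ := by
      have := hup (x - y)
      linarith
    have h1 := hδ x y hx1 hy1 hxy1
    set mm := (1 / 2 : ℝ) • x + (1 / 2 : ℝ) • y with hmm
    have hm1 : ‖mm‖ ≤ 1 := by
      refine (norm_add_le _ _).trans ?_
      rw [norm_smul, norm_smul]
      norm_num
      linarith
    have h2 : F ((1 + s) • mm) ≤ 1 := by
      have h3 := hFlip ((1 + s) • mm) mm
      have e1 : (1 + s) • mm - mm = s • mm := by module
      rw [e1, norm_smul, Real.norm_of_nonneg hs0.le] at h3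
      have h4 : s * ‖mm‖ ≤ s * 1 := mul_le_mul_of_nonneg_left hm1 hs0.le
      have h5 : 2 * s = δ := by rw [hs]; ring
      linarith
    have h3 : gauge Kb ((1 + s) • mm) ≤ 1 := gauge_le_one_of_mem h2
    rw [gauge_smul hKbal, Real.norm_of_nonneg (by positivity)] at h3
    have e2 : x + y = (2 : ℝ) • mm := by rw [hmm]; module
    rw [e2, gauge_smul hKbal, Real.norm_of_nonneg (by norm_num)]
    have h4 : 2 - 2 * s / (1 + s) = 2 / (1 + s) := by field_simp; ring
    rw [h4, le_div_iff₀ (by positivity)]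
    linarith

end Pool.Agent.Helper983.UNS
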