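import Pool.Agent.Helper983.UNS.Good

set_option autoImplicit false

namespace Pool.Agent.Helper983.UNS
open Finset Filter Topology

/-- the space of finitely supported sequences -/
abbrev E : Type := ℕ →₀ ℝ

/-- tail sums -/
noncomputable def tail (p : ℕ) : E →ₗ[ℝ] ℝ :=
  Finsupp.linearCombination ℝ (fun j : ℕ => if p ≤ j then (1 : ℝ) else 0)

lemma tail_single (p j : ℕ) (c : ℝ) :
    tail p (Finsupp.single j c) = if p ≤ j then c else 0 := by
  rw [tail, Finsupp.linearCombination_single]
  split_ifs <;> simp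

lemma tail_apply (p : ℕ) (v : E) : tail p v = ∑ j ∈ v.support, if p ≤ j then v j else 0 := by
  rw [tail, Finsupp.linearCombination_apply, Finsupp.sum]
  refine Finset.sum_congr rfl fun j _ => ?_
  split_ifs <;> simp

lemma tail_eq_sum_Ico (p N : ℕ) (v : E) (h : ∀ j ∈ v.support, j < N) :
    tail p v = ∑ j ∈ Finset.Ico p N, v j := by
  rw [tail_apply, ← Finset.sum_filter]
  symm
  rw [← Finset.sum_filter_add_sum_filter_not (Finset.Ico p N) (fun j => v j ≠ 0)]
  have h1 : ∑ j ∈ Finset.Ico p N with ¬ v j ≠ 0, v j = 0 := by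
    refine Finset.sum_eq_zero fun j hj => ?_
    rw [Finset.mem_filter] at hj
    exact not_not.1 hj.2
  rw [h1, add_zero]
  refine Finset.sum_congr ?_ fun _ _ => rfl
  ext j
  simp only [Finset.mem_filter, Finset.mem_Ico, Finsupp.mem_support_iff]
  constructor
  · rintro ⟨⟨h1, h2⟩, h3⟩
    exact ⟨h3, h1⟩
  · rintro ⟨h1, h2⟩
    exact ⟨⟨h2, h j (Finsupp.mem_support_iff.2 h1)⟩, h1⟩

/-- bounded good seminorm squares on finitely supported sequences -/
structure Nice (m : ℕ) (q : ℝ) (F : E → ℝ) : Prop where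
  good : Good m q F
  le_one : ∀ j, F (Finsupp.single j 1) ≤ 1

variable {m : ℕ} {q : ℝ}

/-- the absolute sum -/
noncomputable def ell (v : E) : ℝ := ∑ j ∈ v.support, |v j|

lemma ell_nonneg (v : E) : 0 ≤ ell v := Finset.sum_nonneg fun _ _ => abs_nonneg _

lemma Nice.sqrt_le {F : E → ℝ} (h : Nice m q F) (v : E) : √(F v) ≤ ell v := by
  have e : v = ∑ j ∈ v.support, v j • Finsupp.single j (1 : ℝ) := by
    conv_lhs => rw [← Finsupp.sum_single v, Finsupp.sum]
    refine Finset.sum_congr rfl fun j _ => ?_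
    rw [Finsupp.smul_single, smul_eq_mul, mul_one]
  have h1 : √(F v) ≤ ∑ j ∈ v.support, √(F (v j • Finsupp.single j (1 : ℝ))) := by
    conv_lhs => rw [e]
    exact h.good.tri_sum _ _
  refine h1.trans (Finset.sum_le_sum fun j _ => ?_)
  rw [h.good.sqrt_smul]
  have h2 : √(F (Finsupp.single j 1)) ≤ 1 := by
    rw [Real.sqrt_le_one]
    exact h.le_one j
  calc |v j| * √(F (Finsupp.single j 1)) ≤ |v j| * 1 :=
        mul_le_mul_of_nonneg_left h2 (abs_nonneg _)
    _ = |v j| := mul_one _

lemma Nice.le_ell {F : E → ℝ} (h : Nice m q F) (v : E) : F v ≤ ell v ^ 2 := by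
  calc F v = √(F v) ^ 2 := (Real.sq_sqrt (h.good.nonneg v)).symm
    _ ≤ ell v ^ 2 := pow_le_pow_left₀ (Real.sqrt_nonneg _) (h.sqrt_le v) 2

lemma ell_add_single (v : E) (n : ℕ) (c : ℝ) : ell (v + Finsupp.single n c) ≤ ell v + |c| := by
  classical
  have hsum : ∀ (w : E) (s : Finset ℕ), w.support ⊆ s → ell w = ∑ j ∈ s, |w j| := by
    intro w s hs
    refine Finset.sum_subset hs fun j _ hj => ?_
    rw [Finsupp.notMem_support_iff.1 hj, abs_zero]
  set s := (v + Finsupp.single n c).support ∪ v.support ∪ {n} with hs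
  have h1 := hsum (v + Finsupp.single n c) s (by
    rw [hs, Finset.union_assoc]; exact Finset.subset_union_left)
  have h2 := hsum v s (by
    intro j hj
    rw [hs]
    exact Finset.mem_union_left _ (Finset.mem_union_right _ hj))
  have h3 : ∑ j ∈ s, |(Finsupp.single n c : E) j| = |c| := by
    rw [Finset.sum_eq_single n]
    · rw [Finsupp.single_eq_same]
    · intro j _ hj
      rw [Finsupp.single_eq_of_ne hj, abs_zero]
    · intro hn
      exact absurd (by rw [hs]; exact Finset.mem_union_right _ (Finset.mem_singleton_self n)) hn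
  rw [h1, h2, ← h3, ← Finset.sum_add_distrib]
  refine Finset.sum_le_sum fun j _ => ?_
  rw [Finsupp.add_apply]
  exact abs_add_le _ _

/-- limit along the fixed nonprincipal ultrafilter -/
noncomputable def limU (f : ℕ → ℝ) : ℝ := limUnder (↑(hyperfilter ℕ) : Filter ℕ) f

lemma tendsto_limU {f : ℕ → ℝ} {a b : ℝ} (h : ∀ n, f n ∈ Set.Icc a b) :
    Tendsto f (↑(hyperfilter ℕ) : Filter ℕ) (𝓝 (limU f)) := by
  obtain ⟨x, -, hx⟩ := (isCompact_Icc (a := a) (b := b)).ultrafilter_le_nhds
    (Ultrafilter.map f (hyperfilter ℕ)) (by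
      rw [le_principal_iff, Ultrafilter.coe_map, Filter.mem_map]
      exact Filter.univ_mem' h)
  exact tendsto_nhds_limUnder ⟨x, hx⟩

lemma limU_const (c : ℝ) : limU (fun _ => c) = c :=
  tendsto_nhds_unique (tendsto_limU (a := c) (b := c) fun _ => ⟨le_rfl, le_rfl⟩)
    tendsto_const_nhds

lemma limU_eventually {f : ℕ → ℝ} {a b : ℝ} (h : ∀ n, f n ∈ Set.Icc a b) {c : ℝ} {n₀ : ℕ}
    (hc : ∀ n, n₀ ≤ n → c ≤ f n) : c ≤ limU f := by
  refine ge_of_tendsto (tendsto_limU h) ?_
  have h1 : ∀ᶠ n in atTop, c ≤ f n := eventually_atTop.2 ⟨n₀, hc⟩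
  have h2 : (↑(hyperfilter ℕ) : Filter ℕ) ≤ atTop := by
    rw [← Nat.cofinite_eq_atTop]
    exact hyperfilter_le_cofinite
  exact h1.filter_mono h2

/-- iterated limits -/
noncomputable def Gl (F : E → ℝ) : List ℝ → E → ℝ
  | [], v => F v
  | c :: l, v => limU (fun n => Gl F l (v + Finsupp.single n c))

lemma Gl_mem {F : E → ℝ} (h : Nice m q F) : ∀ (l : List ℝ) (v : E),
    Gl F l v ∈ Set.Icc 0 ((ell v + (l.map (fun c => |c|)).sum) ^ 2) := by
  intro l
  induction l with
  | nil =>
    intro v
    simp only [Gl, List.map_nil, List.sum_nil, add_zero]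
    exact ⟨h.good.nonneg v, h.le_ell v⟩
  | cons c l ih =>
    intro v
    have hmem : ∀ n, Gl F l (v + Finsupp.single n c) ∈
        Set.Icc 0 ((ell v + ((c :: l).map (fun c => |c|)).sum) ^ 2) := by
      intro n
      have h1 := ih (v + Finsupp.single n c)
      refine ⟨h1.1, h1.2.trans ?_⟩
      have h2 := ell_add_single v n c
      have h3 := ell_nonneg (v + Finsupp.single n c)
      have h4 : 0 ≤ (l.map (fun c => |c|)).sum :=
        List.sum_nonneg (by simp)
      refine pow_le_pow_left₀ (by linarith) ?_ 2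
      rw [List.map_cons, List.sum_cons]
      linarith
    exact isClosed_Icc.mem_of_tendsto (tendsto_limU hmem) (Eventually.of_forall hmem)

lemma Gl_tendsto {F : E → ℝ} (h : Nice m q F) (c : ℝ) (l : List ℝ) (v : E) :
    Tendsto (fun n => Gl F l (v + Finsupp.single n c)) (↑(hyperfilter ℕ) : Filter ℕ)
      (𝓝 (Gl F (c :: l) v)) := by
  have hmem : ∀ n, Gl F l (v + Finsupp.single n c) ∈
      Set.Icc 0 ((ell v + ((c :: l).map (fun c => |c|)).sum) ^ 2) := by
    intro n
    have h1 := Gl_mem h l (v + Finsupp.single n c)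
    refine ⟨h1.1, h1.2.trans ?_⟩
    have h2 := ell_add_single v n c
    have h3 := ell_nonneg (v + Finsupp.single n c)
    have h4 : 0 ≤ (l.map (fun c => |c|)).sum :=
      List.sum_nonneg (by simp)
    refine pow_le_pow_left₀ (by linarith) ?_ 2
    rw [List.map_cons, List.sum_cons]
    linarith
  exact tendsto_limU hmem

lemma Gl_filter (F : E → ℝ) : ∀ (l : List ℝ) (v : E),
    Gl F l v = Gl F (l.filter (fun c => decide (c ≠ 0))) v := by
  intro l
  induction l with
  | nil => intro v; simp
  | cons c l ih =>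
    intro v
    by_cases hc : c = 0
    · subst hc
      have h1 : (List.filter (fun c : ℝ => decide (c ≠ 0)) (0 :: l))
          = List.filter (fun c : ℝ => decide (c ≠ 0)) l := by
        simp
      rw [h1, ← ih v, Gl]
      simp only [Finsupp.single_zero, add_zero]
      exact limU_const _
    · have h1 : (List.filter (fun c : ℝ => decide (c ≠ 0)) (c :: l))
          = c :: List.filter (fun c : ℝ => decide (c ≠ 0)) l := by
        simp [hc]
      rw [h1, Gl, Gl]
      congr 1
      funext n
      exact ih _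

/-- the linear map adding a coefficient -/
noncomputable def addAt (i n : ℕ) : E × E →ₗ[ℝ] E × E where
  toFun p := (p.1, p.2 + Finsupp.single n (p.1 i))
  map_add' p p' := by
    refine Prod.ext rfl ?_
    simp only [Prod.fst_add, Prod.snd_add, Finsupp.add_apply, Finsupp.single_add]
    abel
  map_smul' t p := by
    refine Prod.ext rfl ?_
    simp only [Prod.smul_fst, Prod.smul_snd, Finsupp.smul_apply, RingHom.id_apply, smul_add,
      Finsupp.smul_single]

lemma Gl_good {F : E → ℝ} (h : Nice m q F) : ∀ L : List ℕ,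
    Good m q (fun p : E × E => Gl F (L.map p.1) p.2) := by
  intro L
  induction L with
  | nil => exact h.good.comp (LinearMap.snd ℝ E E)
  | cons i L ih =>
    refine Good.lim (l := (↑(hyperfilter ℕ) : Filter ℕ)) (fun n => ih.comp (addAt i n)) ?_
    intro p
    exact Gl_tendsto h (p.1 i) (L.map p.1) p.2

/-- the spreading model -/
noncomputable def Sp (F : E → ℝ) (a : E) : ℝ := Gl F ((a.support.sort (· ≤ ·)).map a) 0

lemma Sp_eq (F : E → ℝ) (a : E) (k : ℕ) (hk : ∀ j ∈ a.support, j < k) :
    Sp F a = Gl F ((List.range k).map a) 0 := by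
  rw [Sp, Gl_filter F ((List.range k).map a), List.filter_map]
  have h1 : a.support.sort (· ≤ ·)
      = (List.range k).filter ((fun c : ℝ => decide (c ≠ 0)) ∘ a) := by
    refine (Finset.sortedLT_sort _).eq_of_mem_iff ?_ ?_
    · exact (List.pairwise_lt_range.filter _).sortedLT
    · intro j
      rw [Finset.mem_sort, List.mem_filter, List.mem_range]
      simp only [Function.comp_apply, decide_eq_true_eq, Finsupp.mem_support_iff]
      constructor
      · intro hj
        exact ⟨hk j (Finsupp.mem_support_iff.2 hj), hj⟩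
      · exact fun hj => hj.2
  rw [h1]

lemma Sp_tendsto (F : E → ℝ) (a : E) :
    Tendsto (fun k : ℕ => Gl F ((List.range k).map a) 0) atTop (𝓝 (Sp F a)) := by
  obtain ⟨k₀, hk₀⟩ : ∃ k₀ : ℕ, ∀ j ∈ a.support, j < k₀ := by
    refine ⟨a.support.sup id + 1, fun j hj => ?_⟩
    have := Finset.le_sup (f := id) hj
    simp only [id] at this
    omega
  refine tendsto_const_nhds.congr' ?_
  filter_upwards [eventually_ge_atTop k₀] with k hk
  exact Sp_eq F a k fun j hj => (hk₀ j hj).trans_le hk

lemma Sp_good {F : E → ℝ} (h : Nice m q F) : Good m q (Sp F) := by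
  refine Good.lim (l := atTop)
    (fun k : ℕ => (Gl_good h (List.range k)).comp (LinearMap.inl ℝ E E)) ?_
  intro a
  exact Sp_tendsto F a

lemma Sp_nice {F : E → ℝ} (h : Nice m q F) : Nice m q (Sp F) := by
  refine ⟨Sp_good h, fun j => ?_⟩
  have h1 : (Finsupp.single j (1 : ℝ) : E).support = {j} :=
    Finsupp.support_single _ one_ne_zero
  rw [Sp, h1, Finset.sort_singleton]
  simp only [List.map_cons, List.map_nil, Finsupp.single_eq_same]
  have h2 := Gl_tendsto h 1 [] 0
  refine le_of_tendsto' h2 fun n => ?_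
  simp only [Gl, zero_add]
  exact h.le_one n

lemma Sp_map (F : E → ℝ) {σ : ℕ → ℕ} (hσ : StrictMono σ) (a : E) :
    Sp F (Finsupp.mapDomain σ a) = Sp F a := by
  have h1 : (Finsupp.mapDomain σ a).support.sort (· ≤ ·) = (a.support.sort (· ≤ ·)).map σ := by
    refine (Finset.sortedLT_sort _).eq_of_mem_iff ?_ ?_
    · exact ((Finset.sortedLT_sort a.support).pairwise.map σ (fun _ _ h => hσ h)).sortedLT
    · intro j
      rw [Finset.mem_sort, Finsupp.mapDomain_support_of_injective hσ.injective]
      simp only [Finset.mem_image, List.mem_map, Finset.mem_sort]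
  rw [Sp, Sp, h1, List.map_map]
  congr 1
  refine List.map_congr_left fun j _ => ?_
  exact Finsupp.mapDomain_apply hσ.injective a j

lemma Gl_tail {F : E → ℝ} (h : Nice m q F) {κ : ℝ}
    (hF : ∀ (v : E) (k : ℕ), 1 ≤ k → κ * (tail k v) ^ 2 ≤ F v) :
    ∀ (l : List ℝ) (v : E) (p : ℕ), 1 ≤ p → κ * (tail p v + l.sum) ^ 2 ≤ Gl F l v := by
  intro l
  induction l with
  | nil =>
    intro v p hp
    rw [List.sum_nil, add_zero]
    exact hF v p hp
  | cons c l ih =>
    intro v p hp
    refine limU_eventually (a := 0) (b := (ell v + ((c :: l).map (fun c => |c|)).sum) ^ 2)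
      (n₀ := p) ?_ ?_
    · intro n
      have h1 := Gl_mem h l (v + Finsupp.single n c)
      refine ⟨h1.1, h1.2.trans ?_⟩
      have h2 := ell_add_single v n c
      have h3 := ell_nonneg (v + Finsupp.single n c)
      have h4 : 0 ≤ (l.map (fun c => |c|)).sum :=
        List.sum_nonneg (by simp)
      refine pow_le_pow_left₀ (by linarith) ?_ 2
      rw [List.map_cons, List.sum_cons]
      linarith
    · intro n hn
      have h1 := ih (v + Finsupp.single n c) p hp
      rw [map_add, tail_single, if_pos hn, add_assoc] at h1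
      rw [List.sum_cons]
      exact h1

lemma Gl_tail' {F : E → ℝ} (h : Nice m q F) {κ : ℝ}
    (hF : ∀ (v : E) (k : ℕ), 1 ≤ k → κ * (tail k v) ^ 2 ≤ F v) :
    ∀ (l₁ l₂ : List ℝ) (v : E), κ * (l₂.sum) ^ 2 ≤ Gl F (l₁ ++ l₂) v := by
  intro l₁ l₂
  induction l₁ with
  | nil =>
    intro v
    set p := v.support.sup id + 1 with hp
    have h1 := Gl_tail h hF l₂ v p (by omega)
    have h2 : tail p v = 0 := by
      rw [tail_apply]
      refine Finset.sum_eq_zero fun j hj => ?_
      have h3 := Finset.le_sup (f := id) hj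
      simp only [id] at h3
      rw [if_neg (by omega)]
    rw [h2, zero_add] at h1
    exact h1
  | cons c l ih =>
    intro v
    refine ge_of_tendsto' (Gl_tendsto h c (l ++ l₂) v) fun n => ih _

lemma Sp_tail {F : E → ℝ} (h : Nice m q F) {κ : ℝ}
    (hF : ∀ (v : E) (k : ℕ), 1 ≤ k → κ * (tail k v) ^ 2 ≤ F v) (a : E) (p : ℕ) :
    κ * (tail p a) ^ 2 ≤ Sp F a := by
  set k := max p (a.support.sup id + 1) with hk
  have hk1 : ∀ j ∈ a.support, j < k := by
    intro j hj
    have h3 := Finset.le_sup (f := id) hj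
    simp only [id] at h3
    omega
  rw [Sp_eq F a k hk1]
  have h1 : List.range k = List.range p ++ List.range' p (k - p) := by
    have h3 := List.range'_append_1 (s := 0) (m := p) (n := k - p)
    rw [zero_add] at h3
    rw [List.range_eq_range', List.range_eq_range', h3]
    congr 1
    omega
  rw [h1, List.map_append]
  have h2 : (List.map a (List.range' p (k - p))).sum = tail p a := by
    rw [tail_eq_sum_Ico p k a hk1, Finset.sum_eq_multiset_sum]
    rfl
  rw [← h2]
  exact Gl_tail' h hF _ _ 0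

end Pool.Agent.Helper983.UNS
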