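import Pool.Agent.Helper983.UNS.Avg

set_option autoImplicit false

namespace Pool.Agent.Helper983.UNS
open Finset Filter Topology

variable {m : ℕ} {q : ℝ}

/-- unit vectors -/
noncomputable def e (i : ℕ) : E := Finsupp.single i 1

lemma map_e (σ : ℕ → ℕ) (i : ℕ) : Finsupp.lmapDomain ℝ ℝ σ (e i) = e (σ i) := by
  rw [e, Finsupp.lmapDomain_apply, Finsupp.mapDomain_single]
  rfl

/-- differences -/
noncomputable def D : E →ₗ[ℝ] E :=
  Finsupp.linearCombination ℝ (fun a : ℕ => e (2 * a) - e (2 * a + 1))

lemma D_apply (c : E) : D c = ∑ a ∈ c.support, c a • (e (2 * a) - e (2 * a + 1)) := by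
  rw [D, Finsupp.linearCombination_apply, Finsupp.sum]

lemma D_single (a : ℕ) (t : ℝ) : D (Finsupp.single a t) = t • (e (2 * a) - e (2 * a + 1)) := by
  rw [D, Finsupp.linearCombination_single]

lemma supp_erase {F : E → ℝ} (h : Nice m q F) (hI : Inv F) (c : E) (b : ℕ) :
    F (D (c.erase b)) ≤ F (D c) := by
  set v := D (c.erase b) with hv
  set t := c b with ht
  have hDc : D c = v + t • (e (2 * b) - e (2 * b + 1)) := by
    conv_lhs => rw [← Finsupp.erase_add_single b c]
    rw [map_add, D_single]
  have key : ∀ n : ℕ, √(F v) ≤ √(F (D c)) + 2 * |t| * (1 / ((n : ℝ) + 1)) := by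
    intro n
    set τ : ℕ → ℕ := fun j => if j < 2 * b then j else j + n with hτ
    have hτm : StrictMono τ := by
      intro i j hij
      simp only [hτ]
      split_ifs <;> omega
    set w := Finsupp.mapDomain τ v with hw
    have h1 : ∀ s ∈ Finset.range (n + 1), F (w + t • (e (2 * b + s) - e (2 * b + s + 1)))
        = F (D c) := by
      intro s hs
      rw [Finset.mem_range] at hs
      set σ : ℕ → ℕ := fun j => if j < 2 * b then j else if j = 2 * b then 2 * b + s
        else if j = 2 * b + 1 then 2 * b + s + 1 else j + n with hσ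
      have hσm : StrictMono σ := by
        intro i j hij
        simp only [hσ]
        split_ifs <;> omega
      have h2 : Finsupp.lmapDomain ℝ ℝ σ v = w := by
        rw [hw, ← Finsupp.lmapDomain_apply ℝ ℝ, hv, D_apply, map_sum, map_sum]
        refine Finset.sum_congr rfl fun a ha => ?_
        have hab : a ≠ b := by
          rintro rfl
          rw [Finsupp.support_erase] at ha
          exact Finset.notMem_erase _ _ ha
        rw [map_smul, map_smul, map_sub, map_sub, map_e, map_e, map_e, map_e]
        have e1 : σ (2 * a) = τ (2 * a) := by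
          simp only [hσ, hτ]
          split_ifs <;> omega
        have e2 : σ (2 * a + 1) = τ (2 * a + 1) := by
          simp only [hσ, hτ]
          split_ifs <;> omega
        rw [e1, e2]
      have h3 : Finsupp.lmapDomain ℝ ℝ σ (D c) = w + t • (e (2 * b + s) - e (2 * b + s + 1)) := by
        rw [hDc, map_add, h2, map_smul, map_sub, map_e, map_e]
        have e1 : σ (2 * b) = 2 * b + s := by
          simp only [hσ]
          split_ifs <;> omega
        have e2 : σ (2 * b + 1) = 2 * b + s + 1 := by
          simp only [hσ]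
          split_ifs <;> omega
        rw [e1, e2]
      rw [← h3, Finsupp.lmapDomain_apply]
      exact hI σ hσm _
    have h4 := h.good.jensen (Finset.range (n + 1)) (Finset.nonempty_range_iff.2 (by omega))
      (fun s => w + t • (e (2 * b + s) - e (2 * b + s + 1)))
    have hn : ((n : ℝ) + 1) ≠ 0 := by positivity
    rw [Finset.sum_congr rfl h1, Finset.sum_const, Finset.card_range, nsmul_eq_mul, ← mul_assoc,
      Nat.cast_add, Nat.cast_one, inv_mul_cancel₀ hn, one_mul] at h4
    have h5 : ((n : ℝ) + 1)⁻¹ • ∑ s ∈ Finset.range (n + 1),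
        (w + t • (e (2 * b + s) - e (2 * b + s + 1)))
        = w + (((n : ℝ) + 1)⁻¹ * t) • (e (2 * b) - e (2 * b + n + 1)) := by
      rw [Finset.sum_add_distrib, ← Finset.smul_sum, Finset.sum_const, Finset.card_range]
      have h6 : ∑ s ∈ Finset.range (n + 1), (e (2 * b + s) - e (2 * b + s + 1))
          = e (2 * b) - e (2 * b + n + 1) := by
        have := Finset.sum_range_sub' (fun s => e (2 * b + s)) (n + 1)
        simpa [add_assoc] using this
      rw [h6, smul_add, smul_smul, ← Nat.cast_smul_eq_nsmul ℝ, smul_smul, Nat.cast_add,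
        Nat.cast_one, inv_mul_cancel₀ hn, one_smul]
    rw [h5] at h4
    have h7 : F v = F w := by
      rw [hw]
      exact (hI τ hτm v).symm
    have h8 := h.good.tri_sub w (w + (((n : ℝ) + 1)⁻¹ * t) • (e (2 * b) - e (2 * b + n + 1)))
    have h9 : w - (w + (((n : ℝ) + 1)⁻¹ * t) • (e (2 * b) - e (2 * b + n + 1)))
        = (-(((n : ℝ) + 1)⁻¹ * t)) • (e (2 * b) - e (2 * b + n + 1)) := by
      rw [neg_smul]
      abel
    rw [h9, h.good.sqrt_smul, abs_neg, abs_mul, abs_of_pos (by positivity)] at h8
    have h10 : √(F (e (2 * b) - e (2 * b + n + 1))) ≤ 2 := by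
      have h11 := h.good.tri (e (2 * b)) (-e (2 * b + n + 1))
      rw [h.good.neg, ← sub_eq_add_neg] at h11
      have h12 : ∀ j, √(F (e j)) ≤ 1 := fun j => Real.sqrt_le_one.2 (h.le_one j)
      linarith [h12 (2 * b), h12 (2 * b + n + 1)]
    have h13 : ((n : ℝ) + 1)⁻¹ * |t| * √(F (e (2 * b) - e (2 * b + n + 1)))
        ≤ ((n : ℝ) + 1)⁻¹ * |t| * 2 := mul_le_mul_of_nonneg_left h10 (by positivity)
    have h14 := Real.sqrt_le_sqrt h4
    rw [h7]
    have h15 : ((n : ℝ) + 1)⁻¹ * |t| * 2 = 2 * |t| * (1 / ((n : ℝ) + 1)) := by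
      rw [one_div]; ring
    linarith
  have hlim : Tendsto (fun n : ℕ => √(F (D c)) + 2 * |t| * (1 / ((n : ℝ) + 1))) atTop
      (𝓝 (√(F (D c)) + 2 * |t| * 0)) :=
    (tendsto_one_div_add_atTop_nhds_zero_nat.const_mul _).const_add _
  have h1 := ge_of_tendsto' hlim key
  rw [mul_zero, add_zero] at h1
  exact (Real.sqrt_le_sqrt_iff (h.good.nonneg _)).1 h1

lemma supp_filter {F : E → ℝ} (h : Nice m q F) (hI : Inv F) (c : E) (p : ℕ → Prop)
    [DecidablePred p] : F (D (c.filter p)) ≤ F (D c) := by
  classical
  have key : ∀ S : Finset ℕ, F (D (c.filter (fun a => a ∉ S))) ≤ F (D c) := by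
    intro S
    induction S using Finset.induction_on with
    | empty =>
      have : c.filter (fun a => a ∉ (∅ : Finset ℕ)) = c := by
        ext a
        simp
      rw [this]
    | insert b S hb ih =>
      have h1 : c.filter (fun a => a ∉ insert b S) = (c.filter (fun a => a ∉ S)).erase b := by
        ext a
        by_cases hab : a = b
        · subst hab
          rw [Finsupp.erase_same, Finsupp.filter_apply_neg]
          simp
        · rw [Finsupp.erase_ne hab]
          by_cases ha : a ∈ S
          · rw [Finsupp.filter_apply_neg, Finsupp.filter_apply_neg] <;> simp [ha]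
          · rw [Finsupp.filter_apply_pos, Finsupp.filter_apply_pos] <;> simp [ha, hab]
      rw [h1]
      exact (supp_erase h hI _ b).trans ih
  have h1 : c.filter p = c.filter (fun a => a ∉ c.support.filter (fun a => ¬ p a)) := by
    ext a
    by_cases hp : p a
    · rw [Finsupp.filter_apply_pos _ _ hp, Finsupp.filter_apply_pos]
      simp [hp]
    · rw [Finsupp.filter_apply_neg _ _ hp]
      by_cases hc : c a = 0
      · by_cases hm : a ∉ c.support.filter (fun a => ¬ p a)
        · rw [Finsupp.filter_apply_pos (fun a => a ∉ c.support.filter (fun a => ¬ p a)) c hm, hc]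
        · rw [Finsupp.filter_apply_neg (fun a => a ∉ c.support.filter (fun a => ¬ p a)) c hm]
      · rw [Finsupp.filter_apply_neg]
        simp [hp, hc]
  rw [h1]
  exact key _

end Pool.Agent.Helper983.UNS
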