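import Pool.Agent.Helper983.UNS.Supp

set_option autoImplicit false

namespace Pool.Agent.Helper983.UNS
open Finset Filter Topology

variable {q : ℝ}

/-- alternating vector -/
noncomputable def alt (r : ℕ) : E := ∑ τ ∈ Finset.range r, (e (2 * τ) - e (2 * τ + 1))

/-- one point against the next block -/
noncomputable def Pv (M r : ℕ) : E :=
  ∑ τ ∈ Finset.range r, ((M : ℝ) • e ((M + 1) * τ)
    - ∑ t ∈ Finset.range M, e ((M + 1) * τ + (1 + t)))

lemma T_e (M i : ℕ) : T M (e i) = (M : ℝ)⁻¹ • ∑ s ∈ Finset.range M, e (M * i + s) := by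
  rw [e, T_single]
  rfl

lemma nice_two {m : ℕ} {F : E → ℝ} (h : Nice m q F) (i j : ℕ) : √(F (e i - e j)) ≤ 2 := by
  have h11 := h.good.tri (e i) (-e j)
  rw [h.good.neg, ← sub_eq_add_neg] at h11
  have h12 : ∀ j, √(F (e j)) ≤ 1 := fun j => Real.sqrt_le_one.2 (h.le_one j)
  linarith [h12 i, h12 j]

lemma Pv_ge {m M : ℕ} (hM : 0 < M) {F : E → ℝ} (h : Nice m q F) (hI : Inv F)
    (hT : ∀ a, F (T M a) = F a) (r : ℕ) : (M : ℝ) ^ 2 * F (alt r) ≤ F (Pv M r) := by
  have hM0 : (M : ℝ) ≠ 0 := by exact_mod_cast hM.ne'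
  set Q : ℕ → E := fun s => ∑ τ ∈ Finset.range r, ((M : ℝ) • e (M * (2 * τ) + s)
    - ∑ t ∈ Finset.range M, e (M * (2 * τ + 1) + t)) with hQ
  have h1 : ∀ s ∈ Finset.range M, F (Q s) = F (Pv M r) := by
    intro s hs
    rw [Finset.mem_range] at hs
    set σ : ℕ → ℕ := fun n => if n % (M + 1) = 0 then M * (2 * (n / (M + 1))) + s
      else M * (2 * (n / (M + 1)) + 1) + (n % (M + 1) - 1) with hσ
    have hσm : StrictMono σ := by
      intro n n' hn
      have h1 : n / (M + 1) ≤ n' / (M + 1) := Nat.div_le_div_right hn.le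
      have h2 := Nat.div_add_mod n (M + 1)
      have h3 := Nat.div_add_mod n' (M + 1)
      have h4 := Nat.mod_lt n (by omega : 0 < M + 1)
      have h5 := Nat.mod_lt n' (by omega : 0 < M + 1)
      simp only [hσ]
      generalize n / (M + 1) = a at *
      generalize n' / (M + 1) = a' at *
      generalize n % (M + 1) = b at *
      generalize n' % (M + 1) = b' at *
      have e1 : M * (2 * a + 1) = M * (2 * a) + M := by ring
      have e2 : M * (2 * a' + 1) = M * (2 * a') + M := by ring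
      rcases h1.eq_or_lt with h | h
      · subst h
        rw [e1]
        split_ifs <;> omega
      · have h6 : M * (2 * (a + 1)) ≤ M * (2 * a') := Nat.mul_le_mul_left M (by omega)
        have e3 : M * (2 * (a + 1)) = M * (2 * a) + M + M := by ring
        rw [e1, e2]
        split_ifs <;> omega
    have h2 : Finsupp.lmapDomain ℝ ℝ σ (Pv M r) = Q s := by
      rw [Pv, map_sum, hQ]
      refine Finset.sum_congr rfl fun τ _ => ?_
      rw [map_sub, map_smul, map_sum, map_e]
      have e1 : σ ((M + 1) * τ) = M * (2 * τ) + s := by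
        simp only [hσ]
        rw [if_pos (Nat.mul_mod_right _ _), Nat.mul_div_cancel_left _ (by omega)]
      rw [e1]
      congr 1
      refine Finset.sum_congr rfl fun t ht => ?_
      rw [Finset.mem_range] at ht
      rw [map_e]
      congr 1
      simp only [hσ]
      have e2 : ((M + 1) * τ + (1 + t)) % (M + 1) = 1 + t := by
        rw [Nat.mul_add_mod, Nat.mod_eq_of_lt (by omega)]
      have e3 : ((M + 1) * τ + (1 + t)) / (M + 1) = τ := by
        rw [Nat.mul_add_div (by omega), Nat.div_eq_of_lt (by omega), add_zero]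
      rw [e2, e3, if_neg (by omega)]
      congr 1
      omega
    rw [← h2, Finsupp.lmapDomain_apply]
    exact hI σ hσm _
  have h2 := h.good.jensen (Finset.range M) (Finset.nonempty_range_iff.2 hM.ne') Q
  rw [Finset.sum_congr rfl h1, Finset.sum_const, Finset.card_range, nsmul_eq_mul, ← mul_assoc,
    inv_mul_cancel₀ hM0, one_mul] at h2
  have h3 : (M : ℝ)⁻¹ • ∑ s ∈ Finset.range M, Q s = (M : ℝ) • T M (alt r) := by
    rw [alt, map_sum, hQ, Finset.sum_comm, Finset.smul_sum, Finset.smul_sum]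
    refine Finset.sum_congr rfl fun τ _ => ?_
    rw [map_sub, T_e, T_e, Finset.sum_sub_distrib, ← Finset.smul_sum, Finset.sum_const,
      Finset.card_range, ← Nat.cast_smul_eq_nsmul ℝ, ← smul_sub, ← smul_sub, smul_smul, smul_smul,
      inv_mul_cancel₀ hM0, mul_inv_cancel₀ hM0]
  rw [h3, h.good.hom, hT] at h2
  exact h2

lemma sum_blocks (f : ℕ → E) (m r : ℕ) :
    ∑ τ ∈ Finset.range r, ∑ t ∈ Finset.range m, f (m * τ + t) = ∑ n ∈ Finset.range (m * r), f n := by
  induction r with
  | zero => simp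
  | succ r ih =>
    rw [Finset.sum_range_succ, ih, Nat.mul_succ, Finset.sum_range_add]

lemma sum_shift (f : ℕ → E) (K i : ℕ) :
    ∑ n ∈ Finset.range K, f (i + n) - ∑ n ∈ Finset.range K, f n
      = ∑ t ∈ Finset.range i, (f (K + t) - f t) := by
  have h1 := Finset.sum_range_add f i K
  have h2 := Finset.sum_range_add f K i
  rw [add_comm K i, h1] at h2
  rw [Finset.sum_sub_distrib, sub_eq_sub_iff_add_eq_add, add_comm (∑ n ∈ Finset.range K, f (i + n)),
    h2, add_comm]

/-- the vectors with many clusters -/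
noncomputable def zv (m r : ℕ) (i : Fin m) : E := ∑ τ ∈ Finset.range r, e (m * τ + i)

lemma zv_dist {m : ℕ} {F : E → ℝ} (h : Nice m q F) (hI : Inv F) (r : ℕ) (i j : Fin m) :
    F (zv m r i - zv m r j) ≤ F (alt r) := by
  have key : ∀ i j : Fin m, i < j → F (zv m r i - zv m r j) = F (alt r) := by
    intro i j hij
    have hij' : (i : ℕ) < j := hij
    have hj := j.isLt
    set σ : ℕ → ℕ := fun n => m * (n / 2) + (if n % 2 = 0 then (i : ℕ) else j) with hσ
    have hσm : StrictMono σ := by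
      intro n n' hn
      have h1 : n / 2 ≤ n' / 2 := Nat.div_le_div_right hn.le
      simp only [hσ]
      rcases h1.eq_or_lt with h | h
      · rw [h]
        split_ifs <;> omega
      · have h6 : m * (n / 2 + 1) ≤ m * (n' / 2) := Nat.mul_le_mul_left m h
        rw [mul_add, mul_one] at h6
        split_ifs <;> omega
    have h2 : Finsupp.lmapDomain ℝ ℝ σ (alt r) = zv m r i - zv m r j := by
      rw [alt, map_sum, zv, zv, ← Finset.sum_sub_distrib]
      refine Finset.sum_congr rfl fun τ _ => ?_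
      rw [map_sub, map_e, map_e]
      have e1 : σ (2 * τ) = m * τ + i := by
        simp only [hσ]
        rw [if_pos (by omega), Nat.mul_div_cancel_left _ (by omega)]
      have e2 : σ (2 * τ + 1) = m * τ + j := by
        simp only [hσ]
        rw [if_neg (by omega)]
        congr 2
        omega
      rw [e1, e2]
    rw [← h2, Finsupp.lmapDomain_apply]
    exact hI σ hσm _
  rcases lt_trichotomy i j with hij | hij | hij
  · exact (key i j hij).le
  · rw [hij, sub_self, h.good.zero]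
    exact h.good.nonneg _
  · rw [← neg_sub, h.good.neg]
    exact (key j i hij).le

lemma zv_height {M : ℕ} (hM : 0 < M) {F : E → ℝ} (h : Nice (M + 1) q F) (hI : Inv F)
    (hT : ∀ a, F (T M a) = F a) (r : ℕ) (i : Fin (M + 1)) :
    (M : ℝ) * √(F (alt r)) - 2 * (M + 1) ≤ √(F (∑ j, (zv (M + 1) r i - zv (M + 1) r j))) := by
  have hW : ∑ j, (zv (M + 1) r i - zv (M + 1) r j)
      = ((M : ℝ) + 1) • zv (M + 1) r i - ∑ n ∈ Finset.range ((M + 1) * r), e n := by
    rw [Finset.sum_sub_distrib, Finset.sum_const, Finset.card_univ, Fintype.card_fin,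
      ← Nat.cast_smul_eq_nsmul ℝ, Nat.cast_add, Nat.cast_one]
    congr 1
    simp only [zv]
    rw [Finset.sum_comm, ← sum_blocks]
    refine Finset.sum_congr rfl fun τ _ => ?_
    exact Fin.sum_univ_eq_sum_range (fun t => e ((M + 1) * τ + t)) (M + 1)
  set P := Finsupp.lmapDomain ℝ ℝ (fun n => (i : ℕ) + n) (Pv M r) with hP
  have hFP : F P = F (Pv M r) := by
    rw [hP, Finsupp.lmapDomain_apply]
    exact hI _ (fun a b hab => by show (i : ℕ) + a < i + b; omega) _
  have hP2 : P = ((M : ℝ) + 1) • zv (M + 1) r i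
      - ∑ n ∈ Finset.range ((M + 1) * r), e ((i : ℕ) + n) := by
    rw [← sum_blocks (fun n => e ((i : ℕ) + n)), zv, Finset.smul_sum, ← Finset.sum_sub_distrib, hP,
      Pv, map_sum]
    refine Finset.sum_congr rfl fun τ _ => ?_
    rw [map_sub, map_smul, map_sum, map_e, Finset.sum_range_succ', add_smul, one_smul]
    have e1 : ∀ t ∈ Finset.range M, Finsupp.lmapDomain ℝ ℝ (fun n => (i : ℕ) + n)
        (e ((M + 1) * τ + (1 + t))) = e ((i : ℕ) + ((M + 1) * τ + (t + 1))) := by
      intro t _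
      rw [map_e, add_comm 1 t]
    rw [Finset.sum_congr rfl e1, add_zero, add_comm ((M + 1) * τ) (i : ℕ)]
    abel
  have hdiff : P - ∑ j, (zv (M + 1) r i - zv (M + 1) r j)
      = -∑ t ∈ Finset.range (i : ℕ), (e ((M + 1) * r + t) - e t) := by
    rw [hW, hP2, ← sum_shift]
    abel
  have h1 := h.good.tri_sub P (∑ j, (zv (M + 1) r i - zv (M + 1) r j))
  rw [hdiff, h.good.neg, hFP] at h1
  have h2 : √(F (∑ t ∈ Finset.range (i : ℕ), (e ((M + 1) * r + t) - e t))) ≤ 2 * (M + 1) := by
    refine (h.good.tri_sum _ _).trans ?_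
    calc ∑ t ∈ Finset.range (i : ℕ), √(F (e ((M + 1) * r + t) - e t))
        ≤ ∑ _t ∈ Finset.range (i : ℕ), (2 : ℝ) := Finset.sum_le_sum fun t _ => nice_two h _ _
      _ = (i : ℕ) * 2 := by rw [Finset.sum_const, Finset.card_range, nsmul_eq_mul]
      _ ≤ 2 * (M + 1) := by
          have : ((i : ℕ) : ℝ) ≤ M + 1 := by exact_mod_cast i.isLt.le
          linarith
  have h3 : (M : ℝ) * √(F (alt r)) ≤ √(F (Pv M r)) := by
    have h4 := Real.sqrt_le_sqrt (Pv_ge hM h hI hT r)
    rwa [Real.sqrt_mul (sq_nonneg _), Real.sqrt_sq (Nat.cast_nonneg M)] at h4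
  linarith

theorem alt_bdd {M : ℕ} (hM : 0 < M) (hq0 : 0 ≤ q) (hq : q < M) {F : E → ℝ}
    (h : Nice (M + 1) q F) (hI : Inv F)
    (hT : ∀ a, F (T M a) = F a) : ∃ B : ℝ, 0 ≤ B ∧ ∀ r, √(F (alt r)) ≤ B := by
  have hM0 : (0 : ℝ) < M := by exact_mod_cast hM
  set θ := √(q * M) with hθ
  have hθM : θ < M := by
    rw [hθ, Real.sqrt_lt' hM0, sq]
    exact mul_lt_mul_of_pos_right hq hM0
  have hpos : 0 < M - θ := by linarith
  refine ⟨2 * (M + 1) / (M - θ), by positivity, fun r => ?_⟩
  rw [le_div_iff₀ hpos]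
  set b := √(F (alt r)) with hb
  have hb0 : 0 ≤ b := Real.sqrt_nonneg _
  have hbsq : b ^ 2 = F (alt r) := Real.sq_sqrt (h.good.nonneg _)
  have hstar := h.good.star (zv (M + 1) r)
  have h1 : ∑ i : Fin (M + 1), ∑ j : Fin (M + 1), F (zv (M + 1) r i - zv (M + 1) r j)
      ≤ (M + 1) * (M * b ^ 2) := by
    have h2 : ∀ i : Fin (M + 1), ∑ j : Fin (M + 1), F (zv (M + 1) r i - zv (M + 1) r j)
        ≤ M * b ^ 2 := by
      intro i
      rw [← Finset.sum_erase_add _ _ (Finset.mem_univ i), sub_self, h.good.zero, add_zero]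
      calc ∑ j ∈ Finset.univ.erase i, F (zv (M + 1) r i - zv (M + 1) r j)
          ≤ ∑ _j ∈ Finset.univ.erase i, b ^ 2 :=
            Finset.sum_le_sum fun j _ => by rw [hbsq]; exact zv_dist h hI r i j
        _ = M * b ^ 2 := by
            rw [Finset.sum_const, Finset.card_erase_of_mem (Finset.mem_univ i), Finset.card_univ,
              Fintype.card_fin, nsmul_eq_mul, Nat.add_sub_cancel]
    calc _ ≤ ∑ _i : Fin (M + 1), M * b ^ 2 := Finset.sum_le_sum fun i _ => h2 i
      _ = (M + 1) * (M * b ^ 2) := by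
          rw [Finset.sum_const, Finset.card_univ, Fintype.card_fin, nsmul_eq_mul, Nat.cast_add,
            Nat.cast_one]
  by_cases hcase : (M : ℝ) * b - 2 * (M + 1) ≤ 0
  · have : 0 ≤ θ * b := mul_nonneg (Real.sqrt_nonneg _) hb0
    nlinarith
  push Not at hcase
  have h3 : ((M : ℝ) + 1) * (M * b - 2 * (M + 1)) ^ 2
      ≤ ∑ i : Fin (M + 1), F (∑ j, (zv (M + 1) r i - zv (M + 1) r j)) := by
    calc ((M : ℝ) + 1) * (M * b - 2 * (M + 1)) ^ 2
        = ∑ _i : Fin (M + 1), (M * b - 2 * (M + 1)) ^ 2 := by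
          rw [Finset.sum_const, Finset.card_univ, Fintype.card_fin, nsmul_eq_mul, Nat.cast_add,
            Nat.cast_one]
      _ ≤ _ := by
          refine Finset.sum_le_sum fun i _ => ?_
          have h4 := zv_height hM h hI hT r i
          calc (M * b - 2 * (M + 1)) ^ 2
              ≤ √(F (∑ j, (zv (M + 1) r i - zv (M + 1) r j))) ^ 2 :=
                pow_le_pow_left₀ hcase.le h4 2
            _ = _ := Real.sq_sqrt (h.good.nonneg _)
  have h5 : ((M : ℝ) + 1) * (M * b - 2 * (M + 1)) ^ 2 ≤ (M + 1) * ((θ * b) ^ 2) := by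
    have e1 : (θ * b) ^ 2 = q * (M * b ^ 2) := by
      rw [mul_pow, hθ, Real.sq_sqrt (by positivity)]
      ring
    rw [e1]
    calc _ ≤ q * ∑ i : Fin (M + 1), ∑ j : Fin (M + 1), F (zv (M + 1) r i - zv (M + 1) r j) :=
          h3.trans hstar
      _ ≤ q * ((M + 1) * (M * b ^ 2)) := mul_le_mul_of_nonneg_left h1 hq0
      _ = _ := by ring
  have h6 : (M * b - 2 * (M + 1)) ^ 2 ≤ (θ * b) ^ 2 :=
    le_of_mul_le_mul_left h5 (by positivity)
  have h7 : M * b - 2 * (M + 1) ≤ θ * b :=
    (abs_le_of_sq_le_sq' h6 (mul_nonneg (Real.sqrt_nonneg _) hb0)).2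
  nlinarith

end Pool.Agent.Helper983.UNS
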